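import Mathlib

/-!
# A compact family of finite subsets of `ω₁` defeating every bounded function
-/

open Set

namespace Pool.Agent.Helper74.NS

variable {Γ : Type*} [LinearOrder Γ]

/-- The graded family of finite sets, relative to `e : Γ → Γ → ℕ`. -/
inductive G (e : Γ → Γ → ℕ) : Γ → Finset Γ → Prop
  | single (ξ γ : Γ) (h : ξ ≤ γ) : G e ξ {γ}
  | node (ξ ζ ζ₁ ζ₂ : Γ) (B B' : Finset Γ) (hξ : ξ ≤ ζ) (h1 : ζ < ζ₁) (h2 : ζ < ζ₂)
      (hB : G e ζ₁ B) (hB' : G e ζ₂ B') (hlt : ∀ b ∈ B, ∀ b' ∈ B', b < b')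
      (he : ∀ b ∈ B, ∀ b' ∈ B', e b ζ ≤ e b' b ∧ B.card + B'.card ≤ e b' b) : G e ξ (B ∪ B')

variable {e : Γ → Γ → ℕ}

theorem G.nonempty {ξ : Γ} {A : Finset Γ} (h : G e ξ A) : A.Nonempty := by
  induction h with
  | single ξ γ h => exact ⟨γ, by simp⟩
  | node ξ ζ ζ₁ ζ₂ B B' hξ h1 h2 hB hB' hlt he ihB ihB' => exact ihB.mono Finset.subset_union_left

theorem G.le {ξ : Γ} {A : Finset Γ} (h : G e ξ A) : ∀ γ ∈ A, ξ ≤ γ := by
  induction h with
  | single ξ γ h => intro γ' hγ'; simp at hγ'; subst hγ'; exact h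
  | node ξ ζ ζ₁ ζ₂ B B' hξ h1 h2 hB hB' hlt he ihB ihB' =>
    intro γ hγ
    rcases Finset.mem_union.1 hγ with h | h
    · exact hξ.trans (h1.le.trans (ihB γ h))
    · exact hξ.trans (h2.le.trans (ihB' γ h))

theorem G.mono {ξ ξ' : Γ} {A : Finset Γ} (h : G e ξ A) (hle : ξ' ≤ ξ) : G e ξ' A := by
  cases h with
  | single _ γ h => exact G.single _ _ (hle.trans h)
  | node _ ζ ζ₁ ζ₂ B B' hξ h1 h2 hB hB' hlt he =>
    exact G.node _ ζ ζ₁ ζ₂ B B' (hle.trans hξ) h1 h2 hB hB' hlt he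

theorem G.subset {ξ : Γ} {A : Finset Γ} (h : G e ξ A) :
    ∀ C : Finset Γ, C ⊆ A → C.Nonempty → G e ξ C := by
  induction h with
  | single ξ γ h =>
    intro C hC hne
    have : C = {γ} := by
      rcases Finset.subset_singleton_iff.1 hC with h | h
      · exact absurd h hne.ne_empty
      · exact h
    subst this
    exact G.single _ _ h
  | node ξ ζ ζ₁ ζ₂ B B' hξ h1 h2 hB hB' hlt he ihB ihB' =>
    intro C hC hne
    by_cases hCB : (C ∩ B).Nonempty
    · by_cases hCB' : (C ∩ B').Nonempty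
      · have hCe : C = (C ∩ B) ∪ (C ∩ B') := by
          rw [← Finset.inter_union_distrib_left]
          exact (Finset.inter_eq_left.2 hC).symm
        rw [hCe]
        refine G.node ξ ζ ζ₁ ζ₂ _ _ hξ h1 h2 (ihB _ Finset.inter_subset_right hCB)
          (ihB' _ Finset.inter_subset_right hCB') ?_ ?_
        · intro b hb b' hb'
          exact hlt b (Finset.mem_inter.1 hb).2 b' (Finset.mem_inter.1 hb').2
        · intro b hb b' hb'
          have := he b (Finset.mem_inter.1 hb).2 b' (Finset.mem_inter.1 hb').2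
          refine ⟨this.1, le_trans ?_ this.2⟩
          exact Nat.add_le_add (Finset.card_le_card Finset.inter_subset_right)
            (Finset.card_le_card Finset.inter_subset_right)
      · have hsub : C ⊆ B := by
          intro x hx
          rcases Finset.mem_union.1 (hC hx) with h | h
          · exact h
          · exact absurd ⟨x, Finset.mem_inter.2 ⟨hx, h⟩⟩ hCB'
        exact (ihB C hsub hne).mono (hξ.trans h1.le)
    · have hsub : C ⊆ B' := by
        intro x hx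
        rcases Finset.mem_union.1 (hC hx) with h | h
        · exact absurd ⟨x, Finset.mem_inter.2 ⟨hx, h⟩⟩ hCB
        · exact h
      exact (ihB' C hsub hne).mono (hξ.trans h2.le)

/-- Inversion: a member of the family with at least two points splits. -/
theorem G.split {ξ : Γ} {A : Finset Γ} (h : G e ξ A) (hcard : 2 ≤ A.card) :
    ∃ ζ ζ₁ ζ₂ : Γ, ∃ B B' : Finset Γ, A = B ∪ B' ∧ ξ ≤ ζ ∧ ζ < ζ₁ ∧ ζ < ζ₂ ∧ G e ζ₁ B ∧ G e ζ₂ B' ∧
      (∀ b ∈ B, ∀ b' ∈ B', b < b') ∧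
      (∀ b ∈ B, ∀ b' ∈ B', e b ζ ≤ e b' b ∧ B.card + B'.card ≤ e b' b) := by
  cases h with
  | single _ γ h => simp at hcard
  | node _ ζ ζ₁ ζ₂ B B' hξ h1 h2 hB hB' hlt he =>
    exact ⟨ζ, ζ₁, ζ₂, B, B', rfl, hξ, h1, h2, hB, hB', hlt, he⟩

/-- Compactness of the family: no infinite increasing sequence has all its initial pieces in
the family. -/
theorem not_all_G [WellFoundedLT Γ] (he : ∀ b, InjOn (e b) (Iio b)) (s : ℕ → Γ)
    (hs : StrictMono s) : ¬ ∀ m, ∃ ξ, G e ξ (Finset.image s (Finset.range (m + 1))) := by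
  intro hall
  set A : ℕ → Finset Γ := fun m => Finset.image s (Finset.range (m + 1)) with hA
  have hAmem : ∀ m i, i ≤ m → s i ∈ A m := by
    intro m i hi
    simp only [hA, Finset.mem_image, Finset.mem_range]
    exact ⟨i, by omega, rfl⟩
  have hAmem' : ∀ m x, x ∈ A m → ∃ i ≤ m, s i = x := by
    intro m x hx
    simp only [hA, Finset.mem_image, Finset.mem_range] at hx
    obtain ⟨i, hi, rfl⟩ := hx
    exact ⟨i, by omega, rfl⟩
  have hAcard : ∀ m, (A m).card = m + 1 := by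
    intro m
    simp only [hA]
    rw [Finset.card_image_of_injective _ hs.injective, Finset.card_range]
  -- the bad labels
  let bad : ℕ → Set Γ := fun m => {ξ | ¬ G e ξ (A m)}
  have hbad : ∀ m, (bad m).Nonempty := by
    intro m
    refine ⟨s 1, fun hG => ?_⟩
    have := hG.le (s 0) (hAmem m 0 (Nat.zero_le _))
    exact absurd (hs (Nat.zero_lt_one)) (not_lt.2 this)
  let ρ : ℕ → Γ := fun m => WellFounded.min (wellFounded_lt) (bad m) (hbad m)
  have hρ1 : ∀ m ξ, ξ < ρ m → G e ξ (A m) := by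
    intro m ξ hξ
    by_contra hcon
    exact WellFounded.not_lt_min _ (bad m) hcon hξ
  have hρ2 : ∀ m ξ, G e ξ (A m) → ξ < ρ m := by
    intro m ξ hG
    by_contra hcon
    have h1 : G e (ρ m) (A m) := hG.mono (not_lt.1 hcon)
    exact WellFounded.min_mem (wellFounded_lt) (bad m) (hbad m) h1
  -- `ρ` is antitone, attains its minimum
  have hρanti : ∀ m n, m ≤ n → ρ n ≤ ρ m := by
    intro m n hmn
    by_contra hcon
    have h1 := hρ1 n (ρ m) (not_le.1 hcon)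
    have h2 : G e (ρ m) (A m) := h1.subset _ (by
      intro x hx
      obtain ⟨i, hi, rfl⟩ := hAmem' m x hx
      exact hAmem n i (hi.trans hmn)) ⟨s 0, hAmem m 0 (Nat.zero_le _)⟩
    exact absurd (hρ2 m _ h2) (lt_irrefl _)
  obtain ⟨m₀, hm₀⟩ : ∃ m₀, ∀ m, ρ m₀ ≤ ρ m := by
    have hne : (range ρ).Nonempty := ⟨ρ 0, 0, rfl⟩
    obtain ⟨m₀, hm₀⟩ := WellFounded.min_mem (wellFounded_lt (α := Γ)) (range ρ) hne
    refine ⟨m₀, fun m => ?_⟩
    rw [hm₀]
    have hmem : ρ m ∈ range ρ := ⟨m, rfl⟩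
    exact not_lt.1 (WellFounded.not_lt_min (wellFounded_lt (α := Γ)) (range ρ) hmem)
  have hρeq : ∀ m, m₀ ≤ m → ρ m = ρ m₀ := fun m hm => le_antisymm (hρanti _ _ hm) (hm₀ m)
  -- a large `m`
  let K : ℕ := (Finset.range (m₀ + 1)).sup fun i => e (s i) (s 0)
  have hK : ∀ i ≤ m₀, e (s i) (s 0) ≤ K := fun i hi =>
    Finset.le_sup (f := fun i => e (s i) (s 0)) (Finset.mem_range.2 (by omega))
  let m : ℕ := max (m₀ + 1) (K + 1)
  have hm1 : m₀ + 1 ≤ m := le_max_left _ _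
  have hm2 : K + 1 ≤ m := le_max_right _ _
  let L : ℕ := (Finset.range (m + 1)).sup fun i => e (s i) (s 0)
  have hL : ∀ i ≤ m, e (s i) (s 0) ≤ L := fun i hi =>
    Finset.le_sup (f := fun i => e (s i) (s 0)) (Finset.mem_range.2 (by omega))
  -- the set of possible labels
  let V : Set Γ := {ζ | ζ < s 0 ∧ e (s 0) ζ ≤ L ∧ ∃ ζ₁, ζ < ζ₁ ∧ G e ζ₁ (A m)}
  have hVfin : V.Finite := by
    have h1 : ((e (s 0)) '' V).Finite := (Set.finite_Iic L).subset (by
      rintro _ ⟨ζ, hζ, rfl⟩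
      exact hζ.2.1)
    exact h1.of_finite_image ((he (s 0)).mono fun ζ hζ => hζ.1)
  have hstep : ∀ ξ, G e ξ (A m) → ∃ ζ ∈ V, ξ ≤ ζ := by
    intro ξ hξ
    obtain ⟨ζ, ζ₁, ζ₂, B, B', hAB, hξζ, h1, h2, hB, hB', hlt, hcr⟩ :=
      hξ.split (by rw [hAcard]; omega)
    have hBmem : ∀ x ∈ B, ∃ i ≤ m, s i = x := fun x hx =>
      hAmem' m x (by rw [hAB]; exact Finset.mem_union_left _ hx)
    have hB'mem : ∀ x ∈ B', ∃ i ≤ m, s i = x := fun x hx =>
      hAmem' m x (by rw [hAB]; exact Finset.mem_union_right _ hx)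
    obtain ⟨b, hb⟩ := hB.nonempty
    obtain ⟨b', hb'⟩ := hB'.nonempty
    -- `s 0 ∈ B`
    have hs0 : s 0 ∈ B := by
      have : s 0 ∈ B ∪ B' := hAB ▸ hAmem m 0 (Nat.zero_le _)
      rcases Finset.mem_union.1 this with h | h
      · exact h
      · obtain ⟨i, -, hi⟩ := hBmem b hb
        have h3 := hlt b hb _ h
        rw [← hi] at h3
        exact absurd (hs.lt_iff_lt.1 h3) (Nat.not_lt_zero _)
    have hcardsum : m + 1 ≤ B.card + B'.card := by
      rw [← hAcard m, hAB]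
      exact Finset.card_union_le _ _
    -- `A m₀ ⊆ B`
    have hsub : A m₀ ⊆ B := by
      intro x hx
      obtain ⟨i, hi, rfl⟩ := hAmem' m₀ x hx
      have : s i ∈ B ∪ B' := hAB ▸ hAmem m i (by omega)
      rcases Finset.mem_union.1 this with h | h
      · exact h
      · have h3 := (hcr _ hs0 _ h).2
        have h4 := hK i hi
        omega
    have hG1 : G e ζ₁ (A m₀) := hB.subset _ hsub ⟨s 0, hAmem m₀ 0 (Nat.zero_le _)⟩
    have hlt1 : ζ₁ < ρ m := by
      rw [hρeq m (by omega)]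
      exact hρ2 _ _ hG1
    refine ⟨ζ, ⟨lt_of_lt_of_le h1 (hB.le _ hs0), ?_, ζ₁, h1, hρ1 m _ hlt1⟩, hξζ⟩
    obtain ⟨i, hi, rfl⟩ := hB'mem b' hb'
    exact (hcr _ hs0 _ hb').1.trans (hL i hi)
  -- contradiction
  obtain ⟨ξ, hξ⟩ := hall m
  obtain ⟨ζ, hζ, -⟩ := hstep ξ hξ
  have hVne : V.Nonempty := ⟨ζ, hζ⟩
  obtain ⟨ζ', hζ'⟩ := Set.Finite.exists_maximal hVfin hVne
  obtain ⟨-, -, ζ₁, h1, hG1⟩ := hζ'.1
  obtain ⟨ζ'', hζ'', h2⟩ := hstep ζ₁ hG1
  have := hζ'.2 hζ'' (h1.le.trans h2)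
  exact absurd (lt_of_lt_of_le h1 h2) (not_lt.2 this)

end Pool.Agent.Helper74.NS
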