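import Pool.Agent.Helper74.NS.Comb

set_option linter.unusedSectionVars false

open Set

namespace Pool.Agent.Helper74.NS

variable {Γ : Type*} [LinearOrder Γ] [WellFoundedLT Γ] [Uncountable Γ]
variable {e : Γ → Γ → ℕ}

theorem exists_bound (hc : ∀ a : Γ, (Iio a).Countable) {U : Set Γ} (hU : U.Countable) :
    ∃ δ : Γ, ∀ x ∈ U, x < δ := by
  by_contra hcon
  push Not at hcon
  have h1 : (univ : Set Γ) ⊆ ⋃ x ∈ U, Iic x := by
    intro δ _
    obtain ⟨x, hx, hδ⟩ := hcon δ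
    exact mem_iUnion₂.2 ⟨x, hx, hδ⟩
  have h2 : (⋃ x ∈ U, Iic x).Countable := hU.biUnion fun x _ => by
    have : Iic x = insert x (Iio x) := by
      ext y; simp [le_iff_eq_or_lt]
    rw [this]
    exact (hc x).insert x
  exact not_countable (Set.countable_univ_iff.1 (h2.mono h1))

/-- members of a pairwise disjoint family which meet a countable set are countably many -/
theorem countable_meet {𝒜 : Set (Finset Γ)} (hd : 𝒜.PairwiseDisjoint id) {U : Set Γ}
    (hU : U.Countable) : {A ∈ 𝒜 | ∃ x ∈ A, x ∈ U}.Countable := by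
  classical
  have hch : ∀ A : {A ∈ 𝒜 | ∃ x ∈ A, x ∈ U}, ∃ x : U, (x : Γ) ∈ (A : Finset Γ) := by
    rintro ⟨A, hA, x, hx, hxU⟩
    exact ⟨⟨x, hxU⟩, hx⟩
  choose f hf using hch
  have := hU.to_subtype
  have hinj : Function.Injective f := by
    intro A B hAB
    by_contra hne
    have h1 := hd A.2.1 B.2.1 (fun h => hne (Subtype.ext h))
    have h2 := Finset.disjoint_left.1 h1 (hf A)
    rw [hAB] at h2
    exact h2 (hf B)
  exact Set.countable_coe_iff.1 hinj.countable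

/-- An uncountable set covered by countably many pieces has an uncountable piece. -/
theorem exists_uncountable {α : Type*} {S : Set α} (hS : ¬ S.Countable) (T : ℕ → Set α)
    (hT : S ⊆ ⋃ n, T n) : ∃ n, ¬ (S ∩ T n).Countable := by
  by_contra hcon
  push Not at hcon
  apply hS
  have : S ⊆ ⋃ n, S ∩ T n := by
    intro x hx
    obtain ⟨n, hn⟩ := mem_iUnion.1 (hT hx)
    exact mem_iUnion.2 ⟨n, hx, hn⟩
  exact (countable_iUnion hcon).mono this

theorem exists_pair (he : ∀ b, InjOn (e b) (Iio b)) (hc : ∀ a : Γ, (Iio a).Countable)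
    {ξ ξ' : Γ} (hξ : ξ < ξ') {𝒜 ℬ : Set (Finset Γ)} (hA : ¬ 𝒜.Countable) (hB : ¬ ℬ.Countable)
    (hdA : 𝒜.PairwiseDisjoint id) (hdB : ℬ.PairwiseDisjoint id)
    (hGA : ∀ A ∈ 𝒜, G e ξ' A) (hGB : ∀ B ∈ ℬ, G e ξ' B) :
    ∃ A ∈ 𝒜, ¬ {B ∈ ℬ | (∀ a ∈ A, ∀ b ∈ B, a < b) ∧ G e ξ (A ∪ B)}.Countable := by
  classical
  -- refine the families
  obtain ⟨N, hN⟩ := exists_uncountable hA (fun N => {A | A.card ≤ N ∧ ∀ a ∈ A, e a ξ ≤ N}) (by
    intro A _
    refine mem_iUnion.2 ⟨max A.card (A.sup fun a => e a ξ), le_max_left _ _, fun a ha => ?_⟩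
    exact le_trans (Finset.le_sup (f := fun a => e a ξ) ha) (le_max_right _ _))
  obtain ⟨N', hN'⟩ := exists_uncountable hB (fun N => {A | A.card ≤ N}) (by
    intro A _
    exact mem_iUnion.2 ⟨A.card, (le_refl A.card : A.card ≤ A.card)⟩)
  by_contra hcon
  push Not at hcon
  have hinf : (𝒜 ∩ {A | A.card ≤ N ∧ ∀ a ∈ A, e a ξ ≤ N}).Infinite := fun h => hN h.countable
  have := hinf.to_subtype
  let f := Infinite.natEmbedding (𝒜 ∩ {A : Finset Γ | A.card ≤ N ∧ ∀ a ∈ A, e a ξ ≤ N} : Set _)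
  have hfA : ∀ i, (f i : Finset Γ) ∈ 𝒜 := fun i => (f i).2.1
  have hfc : ∀ i, (f i : Finset Γ).card ≤ N := fun i => (f i).2.2.1
  have hfe : ∀ i, ∀ a ∈ (f i : Finset Γ), e a ξ ≤ N := fun i => (f i).2.2.2
  -- a bound for all of these
  have hUc : (⋃ i, ((f i : Finset Γ) : Set Γ)).Countable :=
    countable_iUnion fun i => (Finset.finite_toSet _).countable
  obtain ⟨δ, hδ⟩ := exists_bound hc hUc
  have hbad1 : {B ∈ ℬ | ∃ x ∈ B, x ∈ Iio δ}.Countable := countable_meet hdB (hc δ)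
  have hbad2 : (⋃ i, {B ∈ ℬ | (∀ a ∈ (f i : Finset Γ), ∀ b ∈ B, a < b) ∧
      G e ξ ((f i : Finset Γ) ∪ B)}).Countable := countable_iUnion fun i => hcon _ (hfA i)
  obtain ⟨B, hB1, hB2⟩ : ∃ B ∈ (ℬ ∩ {A | A.card ≤ N'}), B ∉
      ({B ∈ ℬ | ∃ x ∈ B, x ∈ Iio δ} ∪ (⋃ i, {B ∈ ℬ | (∀ a ∈ (f i : Finset Γ), ∀ b ∈ B, a < b) ∧
      G e ξ ((f i : Finset Γ) ∪ B)})) := by
    by_contra hcon2
    push Not at hcon2
    exact hN' ((hbad1.union hbad2).mono hcon2)
  rw [mem_union, not_or] at hB2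
  obtain ⟨hB3, hB4⟩ := hB2
  have hBδ : ∀ b ∈ B, δ ≤ b := by
    intro b hb
    by_contra hlt
    exact hB3 ⟨hB1.1, b, hb, not_le.1 hlt⟩
  have hlt : ∀ i, ∀ a ∈ (f i : Finset Γ), ∀ b ∈ B, a < b := by
    intro i a ha b hb
    exact lt_of_lt_of_le (hδ a (mem_iUnion.2 ⟨i, ha⟩)) (hBδ b hb)
  have hnG : ∀ i, ¬ G e ξ ((f i : Finset Γ) ∪ B) := by
    intro i hG
    exact hB4 (mem_iUnion.2 ⟨i, hB1.1, hlt i, hG⟩)
  have hex : ∀ i, ∃ a ∈ (f i : Finset Γ), ∃ b ∈ B, e b a < N + N' := by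
    intro i
    by_contra hno
    push Not at hno
    refine hnG i (G.node ξ ξ ξ' ξ' _ _ le_rfl hξ hξ (hGA _ (hfA i)) (hGB _ hB1.1) (hlt i) ?_)
    intro a ha b hb
    have h1 := hno a ha b hb
    have h2 := hfe i a ha
    have h3 := hfc i
    have h4 : B.card ≤ N' := hB1.2
    omega
  choose a ha b hb hlt' using hex
  -- pigeonhole
  let g : ℕ → B × Finset.range (N + N') := fun i =>
    (⟨b i, hb i⟩, ⟨e (b i) (a i), Finset.mem_range.2 (hlt' i)⟩)
  obtain ⟨i, j, hij, hg⟩ := Finite.exists_ne_map_eq_of_infinite g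
  have hb' : b i = b j := congrArg (fun p => ((p.1 : B) : Γ)) hg
  have he' : e (b i) (a i) = e (b j) (a j) := congrArg (fun p => ((p.2 : Finset.range (N + N')) : ℕ)) hg
  rw [← hb'] at he'
  have haa : a i = a j := he (b i) (hlt i _ (ha i) _ (hb i)) (hlt j _ (ha j) _ (hb i)) he'
  have hdis := hdA (hfA i) (hfA j) (fun h => hij (f.injective (Subtype.ext h)))
  exact Finset.disjoint_left.1 hdis (ha i) (haa ▸ ha j)

/-- A function from an uncountable well-ordered set to `ℝ` cannot be strictly decreasing. -/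
theorem exists_lt_eq (M : Γ → ℝ) (hM : Antitone M) : ∃ ξ ξ' : Γ, ξ < ξ' ∧ M ξ = M ξ' := by
  classical
  by_contra hcon
  push Not at hcon
  have hlt : ∀ ξ ξ', ξ < ξ' → M ξ' < M ξ := fun ξ ξ' h =>
    lt_of_le_of_ne (hM h.le) (fun h' => hcon ξ ξ' h h'.symm)
  -- at most one maximal element; for the others choose a rational in the gap to the successor
  have hgap : ∀ ξ : {ξ : Γ | ∃ η, ξ < η}, ∃ q : ℚ, (q : ℝ) < M ξ ∧ ∀ η, (ξ : Γ) < η → M η < q := by
    rintro ⟨ξ, hξ⟩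
    have hne : ({η | ξ < η} : Set Γ).Nonempty := hξ
    let η₀ := WellFounded.min (wellFounded_lt (α := Γ)) {η | ξ < η} hne
    have h0 : ξ < η₀ := WellFounded.min_mem (wellFounded_lt (α := Γ)) {η | ξ < η} hne
    obtain ⟨q, hq1, hq2⟩ := exists_rat_btwn (hlt ξ η₀ h0)
    refine ⟨q, hq2, fun η hη => lt_of_le_of_lt (hM ?_) hq1⟩
    exact not_lt.1 (WellFounded.not_lt_min (wellFounded_lt (α := Γ)) {η | ξ < η}
      (show η ∈ {η | ξ < η} from hη))
  choose q hq1 hq2 using hgap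
  have hinj : Function.Injective q := by
    intro ξ η h
    by_contra hne
    rcases lt_or_gt_of_ne (fun h' => hne (Subtype.ext h')) with h1 | h1
    · have h2 := hq2 ξ η h1
      have h3 := hq1 η
      rw [h] at h2
      exact absurd h2 (not_lt.2 h3.le)
    · have h2 := hq2 η ξ h1
      have h3 := hq1 ξ
      rw [← h] at h2
      exact absurd h2 (not_lt.2 h3.le)
  have hcount : ({ξ : Γ | ∃ η, ξ < η} : Set Γ).Countable := Set.countable_coe_iff.1 hinj.countable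
  have hmax : ({ξ : Γ | ∃ η, ξ < η}ᶜ : Set Γ).Countable := by
    apply Set.Subsingleton.countable
    intro x hx y hy
    simp only [mem_compl_iff, mem_ofPred_eq, not_exists, not_lt] at hx hy
    exact le_antisymm (hy x) (hx y)
  have := hcount.union hmax
  rw [union_compl_self] at this
  exact not_countable (Set.countable_univ_iff.1 this)

end Pool.Agent.Helper74.NS
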