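import Pool.Agent.Helper74.NS.Comb2

set_option linter.unusedSectionVars false

open Set

namespace Pool.Agent.Helper74.NS

variable {Γ : Type*} [LinearOrder Γ] [WellFoundedLT Γ] [Uncountable Γ]
variable {e : Γ → Γ → ℕ}

/-- There are uncountably many pairwise disjoint `A` with `G e ξ A` and `t < w A`. -/
def Many (e : Γ → Γ → ℕ) (w : Finset Γ → ℝ) (ξ : Γ) (t : ℝ) : Prop :=
  ∃ 𝒜 : Set (Finset Γ), 𝒜.PairwiseDisjoint id ∧ ¬ 𝒜.Countable ∧ ∀ A ∈ 𝒜, G e ξ A ∧ t < w A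

theorem Many.mono {w : Finset Γ → ℝ} {ξ ξ' : Γ} {t t' : ℝ} (h : Many e w ξ t) (hξ : ξ' ≤ ξ)
    (ht : t' ≤ t) : Many e w ξ' t' := by
  obtain ⟨𝒜, h1, h2, h3⟩ := h
  exact ⟨𝒜, h1, h2, fun A hA => ⟨(h3 A hA).1.mono hξ, ht.trans_lt (h3 A hA).2⟩⟩

theorem many_low (hc : ∀ a : Γ, (Iio a).Countable) {w : Finset Γ → ℝ} {c : ℝ}
    (hw : ∀ ξ A, G e ξ A → c < w A) (ξ : Γ) : Many e w ξ c := by
  classical
  refine ⟨(fun γ => ({γ} : Finset Γ)) '' Ici ξ, ?_, ?_, ?_⟩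
  · rintro _ ⟨γ, -, rfl⟩ _ ⟨γ', -, rfl⟩ hne
    simp only [Function.onFun, id, Finset.disjoint_singleton]
    rintro rfl
    exact hne rfl
  · intro hcount
    have h1 : (Ici ξ).Countable := by
      have := hcount.preimage (f := fun γ => ({γ} : Finset Γ)) (Finset.singleton_injective)
      rwa [Set.preimage_image_eq _ Finset.singleton_injective] at this
    have h2 := h1.union (hc ξ)
    have h3 : Ici ξ ∪ Iio ξ = (univ : Set Γ) := by
      ext x; simp [le_or_gt]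
    rw [h3] at h2
    exact not_countable (Set.countable_univ_iff.1 h2)
  · rintro _ ⟨γ, hγ, rfl⟩
    exact ⟨G.single ξ γ hγ, hw ξ _ (G.single ξ γ hγ)⟩

/-- if there are not many sets with a large value, they all meet an initial segment -/
theorem exists_tail (hc : ∀ a : Γ, (Iio a).Countable) {w : Finset Γ → ℝ} {ξ : Γ} {t : ℝ}
    (h : ¬ Many e w ξ t) : ∃ δ : Γ, ∀ A, G e ξ A → (∀ a ∈ A, δ ≤ a) → w A ≤ t := by
  classical
  let S : Set (Set (Finset Γ)) := {𝒜 | 𝒜.PairwiseDisjoint id ∧ ∀ A ∈ 𝒜, G e ξ A ∧ t < w A}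
  obtain ⟨𝒜, hmax⟩ := zorn_subset S (by
    intro c hcS hchain
    refine ⟨⋃₀ c, ⟨?_, ?_⟩, fun s hs => subset_sUnion_of_mem hs⟩
    · intro A hA B hB hne
      obtain ⟨s, hs, hAs⟩ := hA
      obtain ⟨s', hs', hBs⟩ := hB
      rcases hchain.total hs hs' with hss | hss
      · exact (hcS hs').1 (hss hAs) hBs hne
      · exact (hcS hs).1 hAs (hss hBs) hne
    · rintro A ⟨s, hs, hAs⟩
      exact (hcS hs).2 A hAs)
  have h𝒜 : 𝒜 ∈ S := hmax.1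
  have hcount : 𝒜.Countable := by
    by_contra hcon
    exact h ⟨𝒜, h𝒜.1, hcon, h𝒜.2⟩
  have hU : (⋃ A ∈ 𝒜, (A : Set Γ)).Countable :=
    hcount.biUnion fun A _ => A.finite_toSet.countable
  obtain ⟨δ, hδ⟩ := exists_bound hc hU
  refine ⟨δ, fun A hA hAδ => ?_⟩
  by_contra hlt
  rw [not_le] at hlt
  have hdis : ∀ B ∈ 𝒜, Disjoint A B := by
    intro B hB
    rw [Finset.disjoint_left]
    intro x hxA hxB
    exact absurd (hδ x (mem_iUnion₂.2 ⟨B, hB, hxB⟩)) (not_lt.2 (hAδ x hxA))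
  have hins : insert A 𝒜 ∈ S := by
    refine ⟨?_, ?_⟩
    · rw [Set.pairwiseDisjoint_insert]
      exact ⟨h𝒜.1, fun B hB _ => hdis B hB⟩
    · rintro B (rfl | hB)
      · exact ⟨hA, hlt⟩
      · exact h𝒜.2 B hB
  have hmem : A ∈ 𝒜 := hmax.2 hins (subset_insert _ _) (mem_insert _ _)
  have := hdis A hmem
  rw [disjoint_self] at this
  obtain ⟨x, hx⟩ := hA.nonempty
  rw [this] at hx
  exact absurd hx (Finset.notMem_empty x)

/-- Selecting a sequence of pairwise compatible sets from a sequence of uncountable families. -/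
theorem exists_seq (he : ∀ b, InjOn (e b) (Iio b)) (hc : ∀ a : Γ, (Iio a).Countable)
    {ξ ξ' : Γ} (hξ : ξ < ξ') (𝒮 : ℕ → Set (Finset Γ)) (h1 : ∀ n, ¬ (𝒮 n).Countable)
    (h2 : ∀ n, (𝒮 n).PairwiseDisjoint id) (h3 : ∀ n, ∀ A ∈ 𝒮 n, G e ξ' A) :
    ∃ A : ℕ → Finset Γ, (∀ n, A n ∈ 𝒮 n) ∧ ∀ k n, k < n → (∀ a ∈ A k, ∀ b ∈ A n, a < b) ∧
      G e ξ (A k ∪ A n) := by
  classical
  -- one step
  have step : ∀ (𝒯 : {𝒯 : ℕ → Set (Finset Γ) // (∀ n, ¬ (𝒯 n).Countable) ∧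
      (∀ n, (𝒯 n).PairwiseDisjoint id) ∧ ∀ n, ∀ A ∈ 𝒯 n, G e ξ' A}) (j : ℕ),
      ∃ A ∈ 𝒯.1 j, ∀ n, ¬ {B ∈ 𝒯.1 n | (∀ a ∈ A, ∀ b ∈ B, a < b) ∧ G e ξ (A ∪ B)}.Countable := by
    rintro ⟨𝒯, ht1, ht2, ht3⟩ j
    by_contra hcon
    push Not at hcon
    obtain ⟨n, hn⟩ := exists_uncountable (ht1 j) (fun n => {A | {B ∈ 𝒯 n |
      (∀ a ∈ A, ∀ b ∈ B, a < b) ∧ G e ξ (A ∪ B)}.Countable}) (by
        intro A hA
        obtain ⟨n, hn⟩ := hcon A hA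
        exact mem_iUnion.2 ⟨n, hn⟩)
    obtain ⟨A, hA, hA'⟩ := exists_pair he hc hξ hn (ht1 n) ((ht2 j).subset inter_subset_left)
      (ht2 n) (fun A hA => ht3 j A hA.1) (ht3 n)
    exact hA' hA.2
  choose pick hpick1 hpick2 using step
  let next : {𝒯 : ℕ → Set (Finset Γ) // (∀ n, ¬ (𝒯 n).Countable) ∧
      (∀ n, (𝒯 n).PairwiseDisjoint id) ∧ ∀ n, ∀ A ∈ 𝒯 n, G e ξ' A} → ℕ →
      {𝒯 : ℕ → Set (Finset Γ) // (∀ n, ¬ (𝒯 n).Countable) ∧
      (∀ n, (𝒯 n).PairwiseDisjoint id) ∧ ∀ n, ∀ A ∈ 𝒯 n, G e ξ' A} := fun 𝒯 j =>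
    ⟨fun n => {B ∈ 𝒯.1 n | (∀ a ∈ pick 𝒯 j, ∀ b ∈ B, a < b) ∧ G e ξ (pick 𝒯 j ∪ B)},
      hpick2 𝒯 j, fun n => (𝒯.2.2.1 n).subset (fun x hx => hx.1),
      fun n A hA => 𝒯.2.2.2 n A hA.1⟩
  let st : ℕ → {𝒯 : ℕ → Set (Finset Γ) // (∀ n, ¬ (𝒯 n).Countable) ∧
      (∀ n, (𝒯 n).PairwiseDisjoint id) ∧ ∀ n, ∀ A ∈ 𝒯 n, G e ξ' A} := fun j =>
    Nat.rec ⟨𝒮, h1, h2, h3⟩ (fun j 𝒯 => next 𝒯 j) j
  have hst : ∀ j, st (j + 1) = next (st j) j := fun j => rfl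
  have hsub : ∀ j k n, (st (j + k)).1 n ⊆ (st j).1 n := by
    intro j k n
    induction k with
    | zero => exact subset_rfl
    | succ k ih =>
      refine subset_trans ?_ ih
      rw [← add_assoc, hst]
      exact fun x hx => hx.1
  refine ⟨fun j => pick (st j) j, fun n => ?_, fun k n hkn => ?_⟩
  · have := hsub 0 n n
    rw [zero_add] at this
    exact this (hpick1 (st n) n)
  · obtain ⟨d, rfl⟩ := Nat.exists_eq_add_of_lt hkn
    have h4 : (st (k + d + 1)).1 (k + d + 1) ⊆ (st (k + 1)).1 (k + d + 1) := by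
      have := hsub (k + 1) d (k + d + 1)
      rwa [show k + 1 + d = k + d + 1 by ring] at this
    have h5 := h4 (hpick1 (st (k + d + 1)) (k + d + 1))
    rw [hst] at h5
    exact h5.2

/-- The main combinatorial statement: for every bounded real function `w` on the family there is
a sequence of pairwise disjoint sets, any two of which have a union in the family on which `w`
is at most the limit of the values of `w` along the sequence. -/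
theorem main_comb (he : ∀ b, InjOn (e b) (Iio b)) (hc : ∀ a : Γ, (Iio a).Countable)
    (w : Finset Γ → ℝ) {c c' : ℝ} (hw : ∀ ξ A, G e ξ A → c < w A) (hw' : ∀ ξ A, G e ξ A → w A ≤ c') :
    ∃ (ξ : Γ) (A : ℕ → Finset Γ) (M : ℝ), (∀ n, G e ξ (A n)) ∧ (∀ n, M - 1 / (n + 1) < w (A n)) ∧
      ∀ k n, k < n → (∀ a ∈ A k, ∀ b ∈ A n, a < b) ∧ G e ξ (A k ∪ A n) ∧ w (A k ∪ A n) ≤ M := by
  classical
  -- the essential suprema
  have hbdd : ∀ ξ, BddAbove {t | Many e w ξ t} := by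
    intro ξ
    refine ⟨c', ?_⟩
    rintro t ⟨𝒜, h1, h2, h3⟩
    have hne : 𝒜.Nonempty := by
      by_contra hcon
      rw [not_nonempty_iff_eq_empty] at hcon
      rw [hcon] at h2
      exact h2 countable_empty
    obtain ⟨A, hA⟩ := hne
    exact (h3 A hA).2.le.trans (hw' ξ A (h3 A hA).1)
  have hne : ∀ ξ, {t | Many e w ξ t}.Nonempty := fun ξ => ⟨c, many_low hc hw ξ⟩
  let Mf : Γ → ℝ := fun ξ => sSup {t | Many e w ξ t}
  have hMlt : ∀ ξ t, t < Mf ξ → Many e w ξ t := by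
    intro ξ t ht
    obtain ⟨t', ht', htt'⟩ := exists_lt_of_lt_csSup (hne ξ) ht
    exact Many.mono ht' le_rfl htt'.le
  have hMgt : ∀ ξ t, Mf ξ < t → ¬ Many e w ξ t := by
    intro ξ t ht hcon
    exact absurd (le_csSup (hbdd ξ) hcon) (not_le.2 ht)
  have hanti : Antitone Mf := by
    intro ξ ξ' hle
    exact csSup_le_csSup (hbdd ξ) (hne ξ') (fun t ht => Many.mono ht hle le_rfl)
  obtain ⟨ξ, ξ', hξ, hM⟩ := exists_lt_eq Mf hanti
  set M := Mf ξ with hMdef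
  -- a tail on which `w ≤ M`
  have htail : ∀ n : ℕ, ∃ δ : Γ, ∀ A, G e ξ A → (∀ a ∈ A, δ ≤ a) → w A ≤ M + 1 / (n + 1) := by
    intro n
    refine exists_tail hc (hMgt ξ _ ?_)
    have : (0 : ℝ) < 1 / (n + 1) := by positivity
    rw [← hMdef]
    linarith
  choose δ hδ using htail
  obtain ⟨δ', hδ'⟩ := exists_bound hc (countable_range δ)
  have hle : ∀ A, G e ξ A → (∀ a ∈ A, δ' ≤ a) → w A ≤ M := by
    intro A hA hAδ
    refine le_of_forall_pos_lt_add fun ε hε => ?_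
    obtain ⟨n, hn⟩ := exists_nat_one_div_lt hε
    have := hδ n A hA (fun a ha => (hδ' _ ⟨n, rfl⟩).le.trans (hAδ a ha))
    linarith
  -- the families
  have hfam : ∀ n : ℕ, Many e w ξ' (M - 1 / (n + 1)) := by
    intro n
    refine hMlt ξ' _ ?_
    have : (0 : ℝ) < 1 / (n + 1) := by positivity
    rw [← hM]
    linarith
  choose 𝒜 h𝒜1 h𝒜2 h𝒜3 using hfam
  obtain ⟨A, hA1, hA2⟩ := exists_seq he hc hξ (fun n => 𝒜 n \ {A | ∃ x ∈ A, x ∈ Iio δ'})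
    (by
      intro n hcount
      refine h𝒜2 n ?_
      have h5 : {A ∈ 𝒜 n | ∃ x ∈ A, x ∈ Iio δ'}.Countable := countable_meet (h𝒜1 n) (hc δ')
      refine (hcount.union h5).mono fun A hA => ?_
      by_cases h : ∃ x ∈ A, x ∈ Iio δ'
      · exact Or.inr ⟨hA, h⟩
      · exact Or.inl ⟨hA, h⟩)
    (fun n => (h𝒜1 n).subset diff_subset) (fun n A hA => (h𝒜3 n A hA.1).1)
  have hAδ : ∀ n, ∀ a ∈ A n, δ' ≤ a := by
    intro n a ha
    by_contra hlt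
    exact (hA1 n).2 ⟨a, ha, not_le.1 hlt⟩
  refine ⟨ξ, A, M, fun n => ((h𝒜3 n _ (hA1 n).1).1).mono hξ.le, fun n => (h𝒜3 n _ (hA1 n).1).2,
    fun k n hkn => ⟨(hA2 k n hkn).1, (hA2 k n hkn).2, hle _ (hA2 k n hkn).2 ?_⟩⟩
  intro a ha
  rcases Finset.mem_union.1 ha with h | h
  · exact hAδ k a h
  · exact hAδ n a h

end Pool.Agent.Helper74.NS
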