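import Mathlib

namespace Pool.Agent.Helper74.NS

/-- The Chebyshev radius of `C` for the norm `N`: `inf_{x ∈ C} sup_{y ∈ C} N (x - y)`. -/
noncomputable def radius {X : Type*} [AddCommGroup X] (N : X → ℝ) (C : Set X) : ℝ :=
  ⨅ x : C, ⨆ y : C, N ((x : X) - (y : X))

/-- The diameter of `C` for the norm `N`: `sup_{x, y ∈ C} N (x - y)`. -/
noncomputable def diameter {X : Type*} [AddCommGroup X] (N : X → ℝ) (C : Set X) : ℝ :=
  ⨆ x : C, ⨆ y : C, N ((x : X) - (y : X))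

/-- Convexity in a real or complex vector space. -/
def IsConvex (𝕜 : Type*) {X : Type*} [RCLike 𝕜] [AddCommGroup X] [Module 𝕜 X] (C : Set X) : Prop :=
  ∀ x ∈ C, ∀ y ∈ C, ∀ s t : ℝ, 0 ≤ s → 0 ≤ t → s + t = 1 → (s : 𝕜) • x + (t : 𝕜) • y ∈ C

/-- Normal structure of the norm `N`: the Chebyshev radius of every bounded convex set with more
than one point is smaller than its diameter. -/
def HasNormalStructure {𝕜 X : Type*} [RCLike 𝕜] [AddCommGroup X] [Module 𝕜 X]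
    (N : Seminorm 𝕜 X) : Prop :=
  ∀ C : Set X, (∃ M : ℝ, ∀ x ∈ C, N x ≤ M) → IsConvex 𝕜 C → C.Nontrivial →
    radius N C < diameter N C

/-- `N` is a norm on `X` which is equivalent to the given norm `‖·‖`. -/
def IsEquivalentNorm {𝕜 X : Type*} [RCLike 𝕜] [NormedAddCommGroup X] [NormedSpace 𝕜 X]
    (N : Seminorm 𝕜 X) : Prop :=
  ∃ a b : ℝ, 0 < a ∧ ∀ x, a * ‖x‖ ≤ N x ∧ N x ≤ b * ‖x‖

/-- `X` is reflexive: the canonical map of `X` into its bidual is onto. -/
def IsReflexive (𝕜 X : Type*) [RCLike 𝕜] [NormedAddCommGroup X] [NormedSpace 𝕜 X] : Prop :=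
  Function.Surjective (NormedSpace.inclusionInDoubleDual 𝕜 X)

/-- `X` is the closed linear span of at most `ℵ₁` vectors. -/
def IsSpannedByAlephOne (𝕜 X : Type*) [RCLike 𝕜] [NormedAddCommGroup X] [NormedSpace 𝕜 X] : Prop :=
  ∃ s : Set X, Cardinal.mk s ≤ Cardinal.aleph 1 ∧ Dense (Submodule.span 𝕜 s : Set X)

end Pool.Agent.Helper74.NS
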