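import Pool.Agent.Helper74.NS.Comb3
import Pool.Agent.Helper74.NS.Defs

set_option linter.unusedSectionVars false

open Set

namespace Pool.Agent.Helper74.NS

variable {Γ : Type*} [LinearOrder Γ] [WellFoundedLT Γ] [Uncountable Γ]
variable {e : Γ → Γ → ℕ}
variable {𝕜 : Type*} [RCLike 𝕜] {X : Type*} [NormedAddCommGroup X] [NormedSpace 𝕜 X]
  [NormedSpace ℝ X] [IsScalarTower ℝ 𝕜 X]

theorem seminorm_real_smul (N : Seminorm 𝕜 X) (r : ℝ) (hr : 0 ≤ r) (x : X) :
    N (r • x) = r * N x := by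
  rw [RCLike.real_smul_eq_coe_smul (K := 𝕜), map_smul_eq_mul]
  simp [abs_of_nonneg hr]

theorem convex_le (N : Seminorm 𝕜 X) (z : X) (M : ℝ) : Convex ℝ {x : X | N (z - x) ≤ M} := by
  intro x hx y hy a b ha hb hab
  simp only [mem_ofPred_eq] at hx hy ⊢
  have h1 : z - (a • x + b • y) = a • (z - x) + b • (z - y) := by
    have : z = (a + b) • z := by rw [hab, one_smul]
    nth_rewrite 1 [this]
    rw [add_smul, smul_sub, smul_sub]
    abel
  rw [h1]
  calc N (a • (z - x) + b • (z - y)) ≤ N (a • (z - x)) + N (b • (z - y)) := map_add_le_add N _ _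
    _ = a * N (z - x) + b * N (z - y) := by
      rw [seminorm_real_smul N a ha, seminorm_real_smul N b hb]
    _ ≤ a * M + b * M := by gcongr
    _ = M := by rw [← add_mul, hab, one_mul]

theorem diametral (he : ∀ b, InjOn (e b) (Iio b)) (hc : ∀ a : Γ, (Iio a).Countable)
    (v : Γ → X) (hv : ∀ γ, 1 ≤ ‖v γ‖)
    (hF : ∀ ξ A, G e ξ A → ∀ σ : Γ → 𝕜, (∀ γ, ‖σ γ‖ ≤ 1) → ‖∑ γ ∈ A, σ γ • v γ‖ ≤ 1)
    (N : Seminorm 𝕜 X) {a b : ℝ} (ha : 0 < a) (hN : ∀ x, a * ‖x‖ ≤ N x ∧ N x ≤ b * ‖x‖) :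
    ∃ C : Set X, IsClosed C ∧ Convex ℝ C ∧ Bornology.IsBounded C ∧ C.Nontrivial ∧
      radius N C = diameter N C := by
  classical
  have hne : Nonempty Γ := by
    by_contra h
    rw [not_nonempty_iff] at h
    exact not_countable (Finite.to_countable (α := Γ))
  obtain ⟨γ₀⟩ := hne
  have hb : 0 ≤ b := by
    have h1 := hN (v γ₀)
    have h2 := hv γ₀
    by_contra hcon
    rw [not_le] at hcon
    nlinarith [mul_nonneg ha.le (norm_nonneg (v γ₀))]
  -- the function `w`
  let Sw : Finset Γ → Set ℝ := fun A =>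
    {r | ∃ σ : Γ → 𝕜, (∀ γ, ‖σ γ‖ ≤ 1) ∧ r = N (∑ γ ∈ A, σ γ • v γ)}
  let w : Finset Γ → ℝ := fun A => sSup (Sw A)
  have hSbdd : ∀ ξ A, G e ξ A → ∀ r ∈ Sw A, r ≤ b := by
    rintro ξ A hA r ⟨σ, hσ, rfl⟩
    calc N (∑ γ ∈ A, σ γ • v γ) ≤ b * ‖∑ γ ∈ A, σ γ • v γ‖ := (hN _).2
      _ ≤ b * 1 := by gcongr; exact hF ξ A hA σ hσ
      _ = b := mul_one b
  have hle_w : ∀ ξ A, G e ξ A → ∀ σ : Γ → 𝕜, (∀ γ, ‖σ γ‖ ≤ 1) →
      N (∑ γ ∈ A, σ γ • v γ) ≤ w A := fun ξ A hA σ hσ =>
    le_csSup ⟨b, fun r hr => hSbdd ξ A hA r hr⟩ ⟨σ, hσ, rfl⟩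
  have hSne : ∀ A, (Sw A).Nonempty := fun A => ⟨_, fun _ => 0, by simp, rfl⟩
  have hw_up : ∀ ξ A, G e ξ A → w A ≤ b := fun ξ A hA => csSup_le (hSne A) (hSbdd ξ A hA)
  have hw_low : ∀ ξ A, G e ξ A → a ≤ w A := by
    intro ξ A hA
    obtain ⟨γ, hγ⟩ := hA.nonempty
    have h1 := hle_w ξ A hA (fun γ' => if γ' = γ then 1 else 0) (by
      intro γ'
      by_cases h : γ' = γ <;> simp [h])
    have h2 : ∑ γ' ∈ A, (if γ' = γ then (1 : 𝕜) else 0) • v γ' = v γ := by
      rw [Finset.sum_eq_single γ]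
      · simp
      · intro γ' _ hne
        simp [hne]
      · intro h
        exact absurd hγ h
    rw [h2] at h1
    calc a = a * 1 := (mul_one a).symm
      _ ≤ a * ‖v γ‖ := by gcongr; exact hv γ
      _ ≤ N (v γ) := (hN _).1
      _ ≤ w A := h1
  obtain ⟨ξ, A, M, hA, hAM, hAA⟩ := main_comb he hc w (c := a / 2) (c' := b)
    (fun ξ A hA => by linarith [hw_low ξ A hA]) hw_up
  have hMpos : 0 < M := lt_of_lt_of_le ha
    ((hw_low ξ _ (hAA 0 1 Nat.zero_lt_one).2.1).trans (hAA 0 1 Nat.zero_lt_one).2.2)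
  -- the vectors
  have hu : ∀ n : ℕ, ∃ σ : Γ → 𝕜, (∀ γ, ‖σ γ‖ ≤ 1) ∧
      M - 1 / (n + 1) < N (∑ γ ∈ A n, σ γ • v γ) := by
    intro n
    obtain ⟨_, ⟨σ, hσ, rfl⟩, h⟩ := exists_lt_of_lt_csSup (hSne (A n)) (hAM n)
    exact ⟨σ, hσ, h⟩
  choose σ hσ hσM using hu
  let u : ℕ → X := fun n => ∑ γ ∈ A n, σ n γ • v γ
  have hu_norm : ∀ n, ‖u n‖ ≤ 1 := fun n => hF ξ _ (hA n) _ (hσ n)
  have hdisj : ∀ k n, k < n → Disjoint (A k) (A n) := by
    intro k n hkn
    rw [Finset.disjoint_left]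
    intro x hx hx'
    exact lt_irrefl _ ((hAA k n hkn).1 x hx x hx')
  have hpair : ∀ k n, k < n → ∀ τ : 𝕜, ‖τ‖ ≤ 1 → N (u n + τ • u k) ≤ M := by
    intro k n hkn τ hτ
    have h1 := hle_w ξ _ (hAA k n hkn).2.1 (fun γ => if γ ∈ A n then σ n γ else τ * σ k γ) (by
      intro γ
      by_cases h : γ ∈ A n
      · simp only [h, if_true]; exact hσ n γ
      · simp only [h, if_false, norm_mul]
        exact mul_le_one₀ hτ (norm_nonneg _) (hσ k γ))
    have h2 : ∑ γ ∈ A k ∪ A n, (if γ ∈ A n then σ n γ else τ * σ k γ) • v γ = u n + τ • u k := by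
      rw [Finset.sum_union (hdisj k n hkn), add_comm]
      congr 1
      · refine Finset.sum_congr rfl fun γ hγ => ?_
        simp [hγ]
      · rw [Finset.smul_sum]
        refine Finset.sum_congr rfl fun γ hγ => ?_
        have : γ ∉ A n := Finset.disjoint_left.1 (hdisj k n hkn) hγ
        simp [this, mul_smul]
    rw [h2] at h1
    exact h1.trans (hAA k n hkn).2.2
  have hplus : ∀ k n, k < n → N (u n + u k) ≤ M := by
    intro k n hkn
    have := hpair k n hkn 1 (by simp)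
    rwa [one_smul] at this
  have hminus : ∀ k n, N (u k - u n) ≤ M := by
    intro k n
    rcases lt_trichotomy k n with h | h | h
    · have := hpair k n h (-1) (by simp)
      rw [neg_one_smul, ← sub_eq_add_neg] at this
      rwa [map_sub_rev]
    · subst h
      simp [hMpos.le]
    · have := hpair n k h (-1) (by simp)
      rwa [neg_one_smul, ← sub_eq_add_neg] at this
  -- the convex set
  let C₀ : Set X := convexHull ℝ (range u)
  let C : Set X := closure C₀
  have hNlip : ∀ x y : X, N x ≤ N y + b * ‖x - y‖ := by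
    intro x y
    have h1 : N x ≤ N (x - y) + N y := by
      have := map_add_le_add N (x - y) y
      rwa [sub_add_cancel] at this
    have h2 := (hN (x - y)).2
    linarith
  have hNcont : Continuous N := by
    refine (LipschitzWith.of_le_add_mul (K := Real.toNNReal b) (f := N) ?_).continuous
    intro x y
    rw [dist_eq_norm, Real.coe_toNNReal b hb]
    exact hNlip x y
  have h1 : ∀ x ∈ C₀, ∀ y ∈ C₀, N (x - y) ≤ M := by
    intro x hx y hy
    have hx' : ∀ n, N (u n - x) ≤ M := by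
      intro n
      have : C₀ ⊆ {x | N (u n - x) ≤ M} := convexHull_min (by
        rintro _ ⟨k, rfl⟩
        exact hminus n k) (convex_le N (u n) M)
      exact this hx
    have : C₀ ⊆ {y | N (x - y) ≤ M} := convexHull_min (by
      rintro _ ⟨k, rfl⟩
      simp only [mem_ofPred_eq]
      rw [map_sub_rev]
      exact hx' k) (convex_le N x M)
    exact this hy
  have h1c : ∀ x ∈ C, ∀ y ∈ C, N (x - y) ≤ M := by
    have h2 : ∀ x ∈ C₀, ∀ y ∈ C, N (x - y) ≤ M := by
      intro x hx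
      have hcl : IsClosed {y | N (x - y) ≤ M} :=
        isClosed_le (hNcont.comp (continuous_const.sub continuous_id)) continuous_const
      exact fun y hy => closure_minimal (fun y hy => h1 x hx y hy) hcl hy
    intro x hx y hy
    have hcl : IsClosed {x | N (x - y) ≤ M} :=
      isClosed_le (hNcont.comp (continuous_id.sub continuous_const)) continuous_const
    exact closure_minimal (fun x hx => h2 x hx y hy) hcl hx
  have h3 : ∀ x ∈ C₀, ∃ K, ∀ n ≥ K, N (u n + x) ≤ M := by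
    have hconv : Convex ℝ {x : X | ∃ K, ∀ n ≥ K, N (u n + x) ≤ M} := by
      rintro x ⟨K, hK⟩ y ⟨K', hK'⟩ s t hs ht hst
      refine ⟨max K K', fun n hn => ?_⟩
      have e1 : u n + (s • x + t • y) = s • (u n + x) + t • (u n + y) := by
        have : u n = (s + t) • u n := by rw [hst, one_smul]
        nth_rewrite 1 [this]
        rw [add_smul, smul_add, smul_add]
        abel
      rw [e1]
      calc N (s • (u n + x) + t • (u n + y)) ≤ N (s • (u n + x)) + N (t • (u n + y)) :=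
            map_add_le_add N _ _
        _ = s * N (u n + x) + t * N (u n + y) := by
          rw [seminorm_real_smul N s hs, seminorm_real_smul N t ht]
        _ ≤ s * M + t * M := by
          gcongr
          · exact hK n (le_trans (le_max_left _ _) hn)
          · exact hK' n (le_trans (le_max_right _ _) hn)
        _ = M := by rw [← add_mul, hst, one_mul]
    exact fun x hx => convexHull_min (by
      rintro _ ⟨k, rfl⟩
      exact ⟨k + 1, fun n hn => hplus k n (by omega)⟩) hconv hx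
  have h4 : ∀ x ∈ C₀, ∃ K, ∀ n ≥ K, M - 2 / (n + 1) ≤ N (x - u n) := by
    intro x hx
    obtain ⟨K, hK⟩ := h3 x hx
    refine ⟨K, fun n hn => ?_⟩
    have e1 := hK n hn
    have e2 := hσM n
    have e3 : N ((2 : 𝕜) • u n) ≤ N (u n + x) + N (u n - x) := by
      have : (2 : 𝕜) • u n = (u n + x) + (u n - x) := by
        rw [two_smul]; abel
      rw [this]
      exact map_add_le_add N _ _
    rw [map_smul_eq_mul, RCLike.norm_ofNat] at e3
    rw [map_sub_rev]
    have e4 : (2 : ℝ) / (n + 1) = 2 * (1 / (n + 1)) := by ring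
    have e5 : M - 1 / (n + 1) < N (u n) := e2
    rw [e4]
    linarith
  have hu_mem : ∀ n, u n ∈ C := fun n => subset_closure (subset_convexHull ℝ _ ⟨n, rfl⟩)
  have h5 : ∀ x ∈ C, ∀ ε > 0, ∃ y ∈ C, M - ε ≤ N (x - y) := by
    intro x hx ε hε
    obtain ⟨x', hx', hxx'⟩ := Metric.mem_closure_iff.1 hx (ε / (2 * (b + 1))) (by positivity)
    obtain ⟨K, hK⟩ := h4 x' hx'
    obtain ⟨n₁, hn₁⟩ := exists_nat_one_div_lt (show (0 : ℝ) < ε / 4 by positivity)
    let n := max K n₁
    refine ⟨u n, hu_mem n, ?_⟩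
    have e1 := hK n (le_max_left _ _)
    have e2 : (2 : ℝ) / (n + 1) ≤ ε / 2 := by
      have : (1 : ℝ) / (n + 1) ≤ 1 / (n₁ + 1) := by
        apply one_div_le_one_div_of_le (by positivity)
        have : (n₁ : ℝ) ≤ (n : ℝ) := by exact_mod_cast le_max_right _ _
        linarith
      have e4 : (2 : ℝ) / (n + 1) = 2 * (1 / (n + 1)) := by ring
      rw [e4]
      linarith
    have e3 := hNlip (x' - u n) (x - u n)
    have e4 : ‖x' - u n - (x - u n)‖ = dist x x' := by
      rw [dist_eq_norm, sub_sub_sub_cancel_right, norm_sub_rev]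
    rw [e4] at e3
    have e5 : b * dist x x' ≤ ε / 2 := by
      calc b * dist x x' ≤ (b + 1) * (ε / (2 * (b + 1))) := by
            gcongr
            linarith
        _ = ε / 2 := by field_simp
    linarith
  have hCne : C.Nonempty := ⟨u 0, hu_mem 0⟩
  haveI : Nonempty C := hCne.to_subtype
  have hbdd : ∀ x : C, BddAbove (range fun y : C => N ((x : X) - (y : X))) := by
    intro x
    refine ⟨M, ?_⟩
    rintro _ ⟨y, rfl⟩
    exact h1c x x.2 y y.2
  have hsup_ge : ∀ x : C, M ≤ ⨆ y : C, N ((x : X) - (y : X)) := by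
    intro x
    refine le_of_forall_sub_le fun ε hε => ?_
    obtain ⟨y, hy, hxy⟩ := h5 x x.2 ε hε
    exact hxy.trans (le_ciSup (hbdd x) ⟨y, hy⟩)
  have hsup_le : ∀ x : C, ⨆ y : C, N ((x : X) - (y : X)) ≤ M := fun x =>
    ciSup_le fun y => h1c x x.2 y y.2
  have hsup : ∀ x : C, ⨆ y : C, N ((x : X) - (y : X)) = M := fun x =>
    le_antisymm (hsup_le x) (hsup_ge x)
  refine ⟨C, isClosed_closure, (convex_convexHull ℝ _).closure, ?_, ?_, ?_⟩
  · refine Metric.isBounded_closedBall.subset (closure_minimal (convexHull_min ?_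
      (convex_closedBall (0 : X) 1)) Metric.isClosed_closedBall)
    rintro _ ⟨n, rfl⟩
    rw [mem_closedBall_zero_iff]
    exact hu_norm n
  · obtain ⟨y, hy, hxy⟩ := h5 (u 0) (hu_mem 0) (M / 2) (by positivity)
    refine ⟨u 0, hu_mem 0, y, hy, ?_⟩
    rintro rfl
    rw [sub_self, map_zero] at hxy
    linarith
  · unfold radius diameter
    simp only [hsup, ciInf_const, ciSup_const]

end Pool.Agent.Helper74.NS
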