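import Pool.Agent.Helper74.NS.Reflexive
import Pool.Agent.Helper74.NS.Diametral

set_option linter.unusedSectionVars false

open Set NormedSpace Cardinal

namespace Pool.Agent.Helper74.NS

section family

variable {Γ : Type*} [LinearOrder Γ]

/-- The compact hereditary family generated by the graded family `G`. -/
def famG (e : Γ → Γ → ℕ) : Fam Γ where
  carrier := {A | A = ∅ ∨ ∃ ξ, G e ξ A}
  single γ := Or.inr ⟨γ, G.single γ γ le_rfl⟩
  down A hA B hB := by
    rcases B.eq_empty_or_nonempty with h | h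
    · exact Or.inl h
    · rcases hA with rfl | ⟨ξ, hξ⟩
      · exact absurd (Finset.subset_empty.1 hB) h.ne_empty
      · exact Or.inr ⟨ξ, hξ.subset B hB h⟩

theorem famG_compact [WellFoundedLT Γ] {e : Γ → Γ → ℕ} (he : ∀ b, InjOn (e b) (Iio b))
    (s : ℕ → Γ) (hs : Function.Injective s) :
    ∃ m, Finset.image s (Finset.range m) ∉ (famG e).carrier := by
  by_contra hcon
  push Not at hcon
  obtain ⟨g, hg | hg⟩ := exists_increasing_or_nonincreasing_subseq (· < ·) s
  · have hmono : StrictMono (s ∘ g) := fun m n hmn => hg m n hmn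
    refine not_all_G he (s ∘ g) hmono fun m => ?_
    have h1 : Finset.image (s ∘ g) (Finset.range (m + 1)) ⊆
        Finset.image s (Finset.range (g m + 1)) := by
      intro x hx
      simp only [Finset.mem_image, Finset.mem_range, Function.comp] at hx ⊢
      obtain ⟨i, hi, rfl⟩ := hx
      refine ⟨g i, ?_, rfl⟩
      have : g i ≤ g m := g.monotone (by omega)
      omega
    rcases (famG e).down _ (hcon (g m + 1)) _ h1 with h2 | ⟨ξ, hξ⟩
    · exfalso
      rw [Finset.image_eq_empty, Finset.range_eq_empty_iff] at h2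
      omega
    · exact ⟨ξ, hξ⟩
  · have hanti : StrictAnti (s ∘ g) := fun m n hmn =>
      lt_of_le_of_ne (not_lt.1 (hg m n hmn))
        (fun h => (hmn.ne (g.injective (hs h)).symm))
    exact not_strictAnti_of_wellFoundedLT _ hanti

end family

/-- The first uncountable ordinal. -/
abbrev Ω : Type := (Cardinal.aleph 1).ord.ToType

instance : Uncountable Ω := by
  rw [← Cardinal.aleph0_lt_mk_iff, Cardinal.mk_ord_toType]
  exact Cardinal.aleph0_lt_aleph_one

theorem countable_Iio (a : Ω) : (Iio a).Countable := by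
  have h : #(Iio a) < #Ω := Cardinal.mk_Iio_lt a (by simp)
  rw [Cardinal.mk_ord_toType, Cardinal.lt_aleph_one_iff] at h
  exact Cardinal.le_aleph0_iff_set_countable.1 h

theorem exists_inj : ∃ e : Ω → Ω → ℕ, ∀ b, InjOn (e b) (Iio b) := by
  choose e he using fun b : Ω => Set.countable_iff_exists_injOn.1 (countable_Iio b)
  exact ⟨e, he⟩

section space

variable (𝕜 : Type) [RCLike 𝕜]

/-- The reflexive space. -/
theorem exists_space {e : Ω → Ω → ℕ} (he : ∀ b, InjOn (e b) (Iio b)) :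
    ∃ (X : Type) (_ : NormedAddCommGroup X) (_ : NormedSpace 𝕜 X), CompleteSpace X ∧
      Function.Surjective (inclusionInDoubleDual 𝕜 X) ∧
      ∃ v : Ω → X, Dense (Submodule.span 𝕜 (range v) : Set X) ∧ (∀ γ, 1 ≤ ‖v γ‖) ∧
        ∀ ξ A, G e ξ A → ∀ σ : Ω → 𝕜, (∀ γ, ‖σ γ‖ ≤ 1) → ‖∑ γ ∈ A, σ γ • v γ‖ ≤ 1 := by
  classical
  have hwf := wf_of_compact (famG e) (famG_compact he)
  have hd : DenseRange (inclusionInDoubleDual 𝕜 (Sp (famG e) 𝕜)) := denseRange_bidual hwf
  refine ⟨StrongDual 𝕜 (StrongDual 𝕜 (Sp (famG e) 𝕜)), inferInstance, inferInstance,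
    inferInstance, refl_dual_of_refl 𝕜 _ (refl_dual_of_dense 𝕜 _ hd),
    fun γ => inclusionInDoubleDual 𝕜 (Sp (famG e) 𝕜) (unit (famG e) 𝕜 γ), ?_, ?_, ?_⟩
  · refine Dense.mono ?_ hd
    rintro _ ⟨y, rfl⟩
    have hy : y = ∑ γ ∈ (toF (famG e) y).support, (toF (famG e) y γ) • unit (famG e) 𝕜 γ := by
      rw [← cut_eq_sum]
      apply (toF (famG e)).injective
      refine Finsupp.ext fun γ => ?_
      rw [cut_apply]
      split_ifs with h
      · rfl
      · exact Finsupp.notMem_support_iff.1 h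
    rw [hy, map_sum]
    refine Submodule.sum_mem _ fun γ _ => ?_
    rw [map_smul]
    exact Submodule.smul_mem _ _ (Submodule.subset_span ⟨γ, rfl⟩)
  · intro γ
    have h1 : ‖inclusionInDoubleDual 𝕜 (Sp (famG e) 𝕜) (unit (famG e) 𝕜 γ)‖ =
        ‖unit (famG e) 𝕜 γ‖ := (inclusionInDoubleDualLi 𝕜).norm_map _
    rw [h1]
    have h2 : ‖toF (famG e) (unit (famG e) 𝕜 γ) γ‖ ≤ ‖unit (famG e) 𝕜 γ‖ :=
      toF_eq_zero_of_norm γ
    have h3 : toF (famG e) (unit (famG e) 𝕜 γ) γ = 1 := by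
      simp [unit]
    rwa [h3, norm_one] at h2
  · intro ξ A hA σ hσ
    have h1 : ∑ γ ∈ A, σ γ • inclusionInDoubleDual 𝕜 (Sp (famG e) 𝕜) (unit (famG e) 𝕜 γ) =
        inclusionInDoubleDual 𝕜 (Sp (famG e) 𝕜) (cut (famG e) σ A) := by
      rw [cut_eq_sum, map_sum]
      simp only [map_smul]
    rw [h1]
    have h2 : ‖inclusionInDoubleDual 𝕜 (Sp (famG e) 𝕜) (cut (famG e) σ A)‖ =
        ‖cut (famG e) σ A‖ := (inclusionInDoubleDualLi 𝕜).norm_map _
    rw [h2]
    exact norm_cut_le_one (Or.inr ⟨ξ, hA⟩) hσ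

end space

end Pool.Agent.Helper74.NS
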