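import Mathlib

set_option linter.unusedSectionVars false

open Set

namespace Pool.Agent.Helper74.NS

/-- A hereditary family of finite sets containing the singletons. -/
structure Fam (Γ : Type*) where
  /-- the members -/
  carrier : Set (Finset Γ)
  single : ∀ γ, {γ} ∈ carrier
  down : ∀ A ∈ carrier, ∀ B ⊆ A, B ∈ carrier

variable {Γ : Type*}

/-- For every finite set there is a member of `S` vanishing on it. -/
def Avoids (S : Set (Γ →₀ ℝ)) : Prop := ∀ E : Finset Γ, ∃ g ∈ S, ∀ γ ∈ E, g γ = 0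

/-- the members of `S` which are small relative to `A` -/
def small [DecidableEq Γ] (F : Fam Γ) (S : Set (Γ →₀ ℝ)) (A : Finset Γ) (ε : ℝ) : Set (Γ →₀ ℝ) :=
  {g ∈ S | ∀ B, A ∪ B ∈ F.carrier → ∑ γ ∈ B, g γ ≤ ε}

theorem small_subset [DecidableEq Γ] (F : Fam Γ) (S : Set (Γ →₀ ℝ)) (A : Finset Γ) (ε : ℝ) :
    small F S A ε ⊆ S := fun _ h => h.1

theorem small_convex [DecidableEq Γ] (F : Fam Γ) {S : Set (Γ →₀ ℝ)} (hS : Convex ℝ S)
    (A : Finset Γ) (ε : ℝ) : Convex ℝ (small F S A ε) := by
  intro g hg h hh a b ha hb hab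
  refine ⟨hS hg.1 hh.1 ha hb hab, fun B hB => ?_⟩
  have h1 := hg.2 B hB
  have h2 := hh.2 B hB
  have h3 : ∑ γ ∈ B, (a • g + b • h) γ = a * ∑ γ ∈ B, g γ + b * ∑ γ ∈ B, h γ := by
    simp only [Finsupp.add_apply, Finsupp.smul_apply, smul_eq_mul, Finset.sum_add_distrib,
      Finset.mul_sum]
  rw [h3]
  calc a * ∑ γ ∈ B, g γ + b * ∑ γ ∈ B, h γ ≤ a * ε + b * ε := by gcongr
    _ = ε := by rw [← add_mul, hab, one_mul]

/-- A Pták type lemma: by well-founded induction on a family of finite sets without infinite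
chains, convex combinations of functions with disjoint supports get small on the family. -/
theorem ptak [DecidableEq Γ] (F : Fam Γ)
    (hwf : WellFounded (fun B A : {A // A ∈ F.carrier} => A.1 ⊂ B.1)) :
    ∀ A : {A // A ∈ F.carrier}, ∀ S : Set (Γ →₀ ℝ), Convex ℝ S →
      (∀ g ∈ S, (∀ γ, 0 ≤ g γ) ∧ ∀ B ∈ F.carrier, ∑ γ ∈ B, g γ ≤ 1) → Avoids S →
      ∀ ε > 0, Avoids (small F S A.1 ε) := by
  intro A
  induction A using hwf.induction with
  | _ A ih =>
  obtain ⟨A, hA⟩ := A
  intro S hconv hS hav ε hε E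
  simp only at ih ⊢
  -- simultaneous smallness
  have hsim : ∀ T : Finset Γ, (∀ γ ∈ T, γ ∉ A) → ∃ S' ⊆ S, Convex ℝ S' ∧ Avoids S' ∧
      ∀ g ∈ S', ∀ γ ∈ T, insert γ A ∈ F.carrier →
        ∀ B, insert γ A ∪ B ∈ F.carrier → ∑ γ ∈ B, g γ ≤ ε / 2 := by
    intro T
    induction T using Finset.induction_on with
    | empty =>
      intro _
      exact ⟨S, subset_rfl, hconv, hav, fun g _ γ hγ => absurd hγ (Finset.notMem_empty γ)⟩
    | insert γ₀ T hγ₀ ihT =>
      intro hT
      obtain ⟨S', hS', hc', ha', hs'⟩ := ihT (fun γ hγ => hT γ (Finset.mem_insert_of_mem hγ))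
      by_cases hin : insert γ₀ A ∈ F.carrier
      · have hss : A ⊂ insert γ₀ A := Finset.ssubset_insert (hT γ₀ (Finset.mem_insert_self _ _))
        refine ⟨small F S' (insert γ₀ A) (ε / 2), (small_subset _ _ _ _).trans hS',
          small_convex F hc' _ _, ?_, ?_⟩
        · exact ih ⟨insert γ₀ A, hin⟩ hss S' hc' (fun g hg => hS g (hS' hg)) ha' (ε / 2)
            (by positivity)
        · intro g hg γ hγ hγA B hB
          rcases Finset.mem_insert.1 hγ with rfl | hγ
          · exact hg.2 B hB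
          · exact hs' g hg.1 γ hγ hγA B hB
      · refine ⟨S', hS', hc', ha', ?_⟩
        intro g hg γ hγ hγA B hB
        rcases Finset.mem_insert.1 hγ with rfl | hγ
        · exact absurd hγA hin
        · exact hs' g hg γ hγ hγA B hB
  -- choose the next function
  have hnext : ∀ T : Finset Γ, ∃ g ∈ S, (∀ γ ∈ T, g γ = 0) ∧ (∀ γ ∈ E, g γ = 0) ∧
      (∀ γ ∈ A, g γ = 0) ∧ ∀ γ ∈ T, γ ∉ A → ∀ B, insert γ A ∪ B ∈ F.carrier →
        ∑ γ ∈ B, g γ ≤ ε / 2 := by
    intro T
    obtain ⟨S', hS', hc', ha', hs'⟩ := hsim (T \ A) (fun γ hγ => (Finset.mem_sdiff.1 hγ).2)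
    obtain ⟨g, hg, hg0⟩ := ha' (T ∪ E ∪ A)
    refine ⟨g, hS' hg, fun γ hγ => hg0 γ (by simp [hγ]), fun γ hγ => hg0 γ (by simp [hγ]),
      fun γ hγ => hg0 γ (by simp [hγ]), fun γ hγ hγA B hB => ?_⟩
    exact hs' g hg γ (Finset.mem_sdiff.2 ⟨hγ, hγA⟩)
      (F.down _ hB _ Finset.subset_union_left) B hB
  choose nxt hn1 hn2 hn3 hn4 hn5 using hnext
  -- the sequence
  let T : ℕ → Finset Γ := fun j => Nat.rec ∅ (fun _ T => T ∪ (nxt T).support) j
  have hT : ∀ j, T (j + 1) = T j ∪ (nxt (T j)).support := fun j => rfl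
  let g : ℕ → (Γ →₀ ℝ) := fun j => nxt (T j)
  have hTsub : ∀ j, T j ⊆ T (j + 1) := fun j => by
    rw [hT]
    exact Finset.subset_union_left
  have hTm : Monotone T := monotone_nat_of_le_succ hTsub
  have hTmono : ∀ i j, i < j → (g i).support ⊆ T j := by
    intro i j hij
    have h1 : (g i).support ⊆ T (i + 1) := by
      rw [hT]
      exact Finset.subset_union_right
    exact h1.trans (hTm hij)
  obtain ⟨k, hk⟩ := exists_nat_gt (2 / ε)
  have hkpos : (0 : ℝ) < k := lt_trans (by positivity) hk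
  have hkne : (k : ℝ) ≠ 0 := hkpos.ne'
  refine ⟨∑ j ∈ Finset.range k, (1 / (k : ℝ)) • g j, ⟨?_, ?_⟩, ?_⟩
  · refine hconv.sum_mem (fun _ _ => by positivity) ?_ (fun j _ => hn1 (T j))
    rw [Finset.sum_const, Finset.card_range, nsmul_eq_mul]
    field_simp
  · intro B hB
    have hBF : B ∈ F.carrier := F.down _ hB _ Finset.subset_union_right
    let s : ℕ → ℝ := fun j => ∑ γ ∈ B, g j γ
    have hs0 : ∀ j, 0 ≤ s j := fun j => Finset.sum_nonneg fun γ _ => (hS _ (hn1 (T j))).1 γ
    have hs1 : ∀ j, s j ≤ 1 := fun j => (hS _ (hn1 (T j))).2 B hBF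
    have hsum : ∑ γ ∈ B, (∑ j ∈ Finset.range k, (1 / (k : ℝ)) • g j) γ
        = (1 / (k : ℝ)) * ∑ j ∈ Finset.range k, s j := by
      simp only [Finsupp.finsetSum_apply, Finsupp.smul_apply, smul_eq_mul, s]
      rw [Finset.sum_comm, Finset.mul_sum]
      refine Finset.sum_congr rfl fun j _ => ?_
      rw [Finset.mul_sum]
    rw [hsum]
    have hkey : ∑ j ∈ Finset.range k, s j ≤ 1 + k * (ε / 2) := by
      by_cases hall : ∀ j, s j ≤ ε / 2
      · calc ∑ j ∈ Finset.range k, s j ≤ ∑ j ∈ Finset.range k, ε / 2 :=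
              Finset.sum_le_sum fun j _ => hall j
          _ = k * (ε / 2) := by simp
          _ ≤ 1 + k * (ε / 2) := by linarith
      · push Not at hall
        have hex : ∃ j, s j ≠ 0 := by
          obtain ⟨j, hj⟩ := hall
          exact ⟨j, by
            intro h
            rw [h] at hj
            linarith⟩
        classical
        let i₀ := Nat.find hex
        have hi₀ : s i₀ ≠ 0 := Nat.find_spec hex
        have hlt : ∀ j, j < i₀ → s j = 0 := by
          intro j hj
          by_contra h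
          exact Nat.find_min hex hj h
        obtain ⟨γ, hγB, hγ⟩ := Finset.exists_ne_zero_of_sum_ne_zero hi₀
        have hγA : γ ∉ A := fun h => hγ (hn4 (T i₀) γ h)
        have hgt : ∀ j, i₀ < j → s j ≤ ε / 2 := by
          intro j hj
          refine hn5 (T j) γ (hTmono i₀ j hj (Finsupp.mem_support_iff.2 hγ)) hγA B ?_
          have : insert γ A ∪ B = A ∪ B := by
            rw [Finset.insert_union, Finset.insert_eq_of_mem (Finset.mem_union_right _ hγB)]
          rw [this]
          exact hB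
        calc ∑ j ∈ Finset.range k, s j
            ≤ ∑ j ∈ Finset.range k, ((if j = i₀ then 1 else 0) + ε / 2) := by
              refine Finset.sum_le_sum fun j _ => ?_
              rcases lt_trichotomy j i₀ with h | h | h
              · rw [hlt j h, if_neg h.ne]; positivity
              · rw [if_pos h]
                have := hs1 j
                linarith
              · rw [if_neg h.ne']
                have := hgt j h
                linarith
          _ = (∑ j ∈ Finset.range k, if j = i₀ then (1 : ℝ) else 0) + k * (ε / 2) := by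
              rw [Finset.sum_add_distrib]; simp
          _ ≤ 1 + k * (ε / 2) := by
              gcongr
              rw [Finset.sum_ite_eq']
              split_ifs <;> norm_num
    have hk1 : 1 / (k : ℝ) ≤ ε / 2 := by
      rw [div_le_iff₀ hkpos]
      rw [div_lt_iff₀ hε] at hk
      linarith
    calc (1 / (k : ℝ)) * ∑ j ∈ Finset.range k, s j ≤ (1 / (k : ℝ)) * (1 + k * (ε / 2)) := by
          gcongr
      _ = 1 / k + ε / 2 := by field_simp
      _ ≤ ε := by linarith
  · intro γ hγ
    rw [Finsupp.finsetSum_apply]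
    refine Finset.sum_eq_zero fun j _ => ?_
    rw [Finsupp.smul_apply, hn3 (T j) γ hγ, smul_zero]

/-- No infinite chains in a compact family. -/
theorem wf_of_compact [DecidableEq Γ] (F : Fam Γ)
    (hF : ∀ s : ℕ → Γ, Function.Injective s → ∃ m, Finset.image s (Finset.range m) ∉ F.carrier) :
    WellFounded (fun B A : {A // A ∈ F.carrier} => A.1 ⊂ B.1) := by
  rw [wellFounded_iff_isEmpty_descending_chain]
  refine ⟨fun ⟨f, hf⟩ => ?_⟩
  have h1 : ∀ n, ∃ x, x ∈ (f (n + 1)).1 ∧ x ∉ (f n).1 := by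
    intro n
    obtain ⟨x, hx1, hx2⟩ := Finset.exists_of_ssubset (hf n)
    exact ⟨x, hx1, hx2⟩
  choose s hs1 hs2 using h1
  have hmono : ∀ m n, m ≤ n → (f m).1 ⊆ (f n).1 := by
    intro m n hmn
    induction n, hmn using Nat.le_induction with
    | base => exact Finset.Subset.refl _
    | succ n hmn ih => exact ih.trans (hf n).1
  have hinj : Function.Injective s := by
    intro m n hmn
    rcases lt_trichotomy m n with h | h | h
    · exact absurd (hmono (m + 1) n h (hs1 m)) (hmn ▸ hs2 n)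
    · exact h
    · exact absurd (hmono (n + 1) m h (hs1 n)) (hmn ▸ hs2 m)
  obtain ⟨m, hm⟩ := hF s hinj
  apply hm
  refine F.down _ (f m).2 _ ?_
  intro x hx
  obtain ⟨i, hi, rfl⟩ := Finset.mem_image.1 hx
  exact hmono (i + 1) m (Finset.mem_range.1 hi) (hs1 i)

end Pool.Agent.Helper74.NS
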