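import Pool.Agent.Helper74.NS.Space

set_option linter.unusedSectionVars false

open Set NormedSpace

namespace Pool.Agent.Helper74.NS

section general

variable (𝕜 : Type*) [RCLike 𝕜] (Y : Type*) [NormedAddCommGroup Y] [NormedSpace 𝕜 Y]

/-- If `Y` is dense in its bidual then the dual of `Y` is reflexive. -/
theorem refl_dual_of_dense (h : DenseRange (inclusionInDoubleDual 𝕜 Y)) :
    Function.Surjective (inclusionInDoubleDual 𝕜 (StrongDual 𝕜 Y)) := by
  intro Ψ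
  refine ⟨Ψ.comp (inclusionInDoubleDual 𝕜 Y), ?_⟩
  have h1 : (fun Φ => inclusionInDoubleDual 𝕜 (StrongDual 𝕜 Y)
      (Ψ.comp (inclusionInDoubleDual 𝕜 Y)) Φ) = fun Φ => Ψ Φ := by
    refine h.equalizer (ContinuousLinearMap.continuous _) Ψ.continuous ?_
    funext y
    rfl
  exact ContinuousLinearMap.ext fun Φ => congrFun h1 Φ

/-- The dual of a reflexive space is reflexive. -/
theorem refl_dual_of_refl (h : Function.Surjective (inclusionInDoubleDual 𝕜 Y)) :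
    Function.Surjective (inclusionInDoubleDual 𝕜 (StrongDual 𝕜 Y)) :=
  refl_dual_of_dense 𝕜 Y h.denseRange

end general

variable {Γ : Type*} {F : Fam Γ} {𝕜 : Type*} [RCLike 𝕜]

theorem toF_eq_zero_of_norm {y : Sp F 𝕜} (γ : Γ) : ‖toF F y γ‖ ≤ ‖y‖ := norm_apply_le F _ γ

/-- Functionals on `Sp F 𝕜` have small tails. -/
theorem tail_small [DecidableEq Γ] (f : StrongDual 𝕜 (Sp F 𝕜)) {ε : ℝ} (hε : 0 < ε) :
    ∃ E : Finset Γ, ∀ y : Sp F 𝕜, (∀ γ ∈ E, toF F y γ = 0) → ‖f y‖ ≤ ε * ‖y‖ := by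
  by_contra hcon
  push Not at hcon
  have h1 : ∀ E : Finset Γ, ∃ y : Sp F 𝕜, (∀ γ ∈ E, toF F y γ = 0) ∧ ‖y‖ ≤ 1 ∧
      ε ≤ RCLike.re (f y) := by
    intro E
    obtain ⟨y, hy, hfy⟩ := hcon E
    have hfy0 : 0 < ‖f y‖ := lt_of_le_of_lt (by positivity) hfy
    have hy0 : 0 < ‖y‖ := by
      rw [norm_pos_iff]
      rintro rfl
      simp at hfy0
    let c : 𝕜 := ((‖y‖ : 𝕜))⁻¹ * ((starRingEnd 𝕜) (f y) * ((‖f y‖ : 𝕜))⁻¹)
    have hc : ‖c‖ = ‖y‖⁻¹ := by
      simp only [c, norm_mul, norm_inv, RCLike.norm_ofReal, abs_norm, RCLike.norm_conj]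
      rw [mul_inv_cancel₀ hfy0.ne', mul_one]
    have hfc : f (c • y) = ((‖f y‖ / ‖y‖ : ℝ) : 𝕜) := by
      rw [map_smul, smul_eq_mul]
      simp only [c]
      have e1 : (starRingEnd 𝕜) (f y) * f y = ((‖f y‖ ^ 2 : ℝ) : 𝕜) := by
        rw [RCLike.conj_mul]
        push_cast
        rfl
      have hne : ((‖f y‖ : ℝ) : 𝕜) ≠ 0 := by
        exact_mod_cast hfy0.ne'
      calc (‖y‖ : 𝕜)⁻¹ * ((starRingEnd 𝕜) (f y) * (‖f y‖ : 𝕜)⁻¹) * f y
          = (‖y‖ : 𝕜)⁻¹ * (((starRingEnd 𝕜) (f y) * f y) * (‖f y‖ : 𝕜)⁻¹) := by ring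
        _ = (‖y‖ : 𝕜)⁻¹ * (((‖f y‖ ^ 2 : ℝ) : 𝕜) * (‖f y‖ : 𝕜)⁻¹) := by rw [e1]
        _ = ((‖f y‖ / ‖y‖ : ℝ) : 𝕜) := by
          push_cast
          field_simp
    refine ⟨c • y, fun γ hγ => ?_, ?_, ?_⟩
    · rw [map_smul, Finsupp.smul_apply, hy γ hγ, smul_zero]
    · rw [norm_smul, hc, inv_mul_cancel₀ hy0.ne']
    · rw [hfc, RCLike.ofReal_re, le_div_iff₀ hy0]
      exact hfy.le
  choose nxt hn1 hn2 hn3 using h1
  let T : ℕ → Finset Γ := fun j => Nat.rec ∅ (fun _ T => T ∪ (toF F (nxt T)).support) j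
  have hT : ∀ j, T (j + 1) = T j ∪ (toF F (nxt (T j))).support := fun j => rfl
  let s : ℕ → Sp F 𝕜 := fun n => ∑ j ∈ Finset.range n, nxt (T j)
  have hs : ∀ n, s (n + 1) = s n + nxt (T n) := fun n => Finset.sum_range_succ _ _
  have hsupp : ∀ n, (toF F (s n)).support ⊆ T n := by
    intro n
    induction n with
    | zero => simp [s]
    | succ n ih =>
      rw [hs, hT, map_add]
      exact Finsupp.support_add.trans (Finset.union_subset_union ih subset_rfl)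
  have hnorm : ∀ n : ℕ, ‖s n‖ ^ 2 ≤ n := by
    intro n
    induction n with
    | zero => simp [s]
    | succ n ih =>
      rw [hs]
      have h2 : ‖s n + nxt (T n)‖ ^ 2 ≤ ‖s n‖ ^ 2 + ‖nxt (T n)‖ ^ 2 := by
        refine norm_add_sq_le fun γ => ?_
        rcases Classical.em (γ ∈ T n) with hγ | hγ
        · right
          exact hn1 (T n) γ hγ
        · left
          by_contra h
          exact hγ (hsupp n (Finsupp.mem_support_iff.2 h))
      have h3 : ‖nxt (T n)‖ ^ 2 ≤ 1 := pow_le_one₀ (norm_nonneg _) (hn2 _)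
      push_cast
      linarith
  have hre : ∀ n : ℕ, n * ε ≤ RCLike.re (f (s n)) := by
    intro n
    induction n with
    | zero => simp [s]
    | succ n ih =>
      rw [hs, map_add, map_add]
      have := hn3 (T n)
      push_cast
      linarith
  obtain ⟨n, hn⟩ := exists_nat_gt (‖f‖ ^ 2 / ε ^ 2)
  have hnpos : (0 : ℝ) < n := lt_of_le_of_lt (by positivity) hn
  have h4 : n * ε ≤ ‖f‖ * ‖s n‖ :=
    (hre n).trans ((RCLike.re_le_norm _).trans (f.le_opNorm _))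
  have h5 : (n * ε) ^ 2 ≤ ‖f‖ ^ 2 * n := by
    calc (n * ε) ^ 2 ≤ (‖f‖ * ‖s n‖) ^ 2 := pow_le_pow_left₀ (by positivity) h4 2
      _ = ‖f‖ ^ 2 * ‖s n‖ ^ 2 := by ring
      _ ≤ ‖f‖ ^ 2 * n := by
        gcongr
        exact hnorm n
  have h6 : n * ε ^ 2 ≤ ‖f‖ ^ 2 := by
    have : (n : ℝ) * (n * ε ^ 2) ≤ n * ‖f‖ ^ 2 := by nlinarith
    exact le_of_mul_le_mul_left this hnpos
  rw [div_lt_iff₀ (by positivity)] at hn
  linarith

/-- Bounded coefficient families have small tails. -/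
theorem coeff_tail [DecidableEq Γ]
    (hwf : WellFounded (fun B A : {A // A ∈ F.carrier} => A.1 ⊂ B.1))
    (a : Γ → 𝕜) {M : ℝ} (hM : ∀ E : Finset Γ, ‖cut F a E‖ ≤ M) {ε : ℝ} (hε : 0 < ε) :
    ∃ E₀ : Finset Γ, ∀ E : Finset Γ, Disjoint E E₀ → ‖cut F a E‖ ≤ ε := by
  by_contra hcon
  push Not at hcon
  let L : (Γ →₀ ℝ) →ₗ[ℝ] ℝ := Finsupp.linearCombination ℝ (fun γ => ‖a γ‖ ^ 2)
  have hL : ∀ (g : Γ →₀ ℝ) (T : Finset Γ), g.support ⊆ T → L g = ∑ γ ∈ T, g γ * ‖a γ‖ ^ 2 := by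
    intro g T hT
    simp only [L]
    rw [Finsupp.linearCombination_apply, Finsupp.sum_of_support_subset _ hT _ (by simp)]
    rfl
  let S : Set (Γ →₀ ℝ) := {g | (∀ γ, 0 ≤ g γ) ∧ (∀ A ∈ F.carrier, ∑ γ ∈ A, g γ ≤ 1) ∧ ε ^ 2 ≤ L g}
  have hconv : Convex ℝ S := by
    intro g hg h hh s t hs ht hst
    refine ⟨fun γ => ?_, fun A hA => ?_, ?_⟩
    · simp only [Finsupp.add_apply, Finsupp.smul_apply, smul_eq_mul]
      have := hg.1 γ
      have := hh.1 γ
      positivity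
    · have h3 : ∑ γ ∈ A, (s • g + t • h) γ = s * ∑ γ ∈ A, g γ + t * ∑ γ ∈ A, h γ := by
        simp only [Finsupp.add_apply, Finsupp.smul_apply, smul_eq_mul, Finset.sum_add_distrib,
          Finset.mul_sum]
      rw [h3]
      calc s * ∑ γ ∈ A, g γ + t * ∑ γ ∈ A, h γ ≤ s * 1 + t * 1 := by
            gcongr
            · exact hg.2.1 A hA
            · exact hh.2.1 A hA
        _ = 1 := by rw [← add_mul, hst, one_mul]
    · rw [map_add, map_smul, map_smul, smul_eq_mul, smul_eq_mul]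
      calc ε ^ 2 = s * ε ^ 2 + t * ε ^ 2 := by rw [← add_mul, hst, one_mul]
        _ ≤ s * L g + t * L h := by
          gcongr
          · exact hg.2.2
          · exact hh.2.2
  have hav : Avoids S := by
    intro E₀
    obtain ⟨E, hE, hlt⟩ := hcon E₀
    obtain ⟨g, hg, hgQ⟩ : ∃ g ∈ Wt F, ε ^ 2 < Q g (toF F (cut F a E)) := by
      by_contra hno
      push Not at hno
      exact absurd (norm_le_of_Q hε.le hno) (not_le.2 hlt)
    rw [Q_cut] at hgQ
    have hval : ∀ γ, (Finsupp.indicator E (fun γ _ => g γ)) γ = if γ ∈ E then g γ else 0 := by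
      intro γ
      rw [Finsupp.indicator_apply]
      split_ifs <;> rfl
    refine ⟨Finsupp.indicator E (fun γ _ => g γ), ⟨fun γ => ?_, fun A hA => ?_, ?_⟩, fun γ hγ => ?_⟩
    · rw [hval]
      exact (Wt.restrict hg E).1 γ
    · simp only [hval]
      exact (Wt.restrict hg E).2 A hA
    · rw [hL _ E (Finsupp.support_indicator_subset _ _)]
      refine hgQ.le.trans (le_of_eq ?_)
      refine Finset.sum_congr rfl fun γ hγ => ?_
      rw [hval, if_pos hγ]
    · rw [hval, if_neg]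
      exact fun h => Finset.disjoint_left.1 hE h hγ
  have hempty : (∅ : Finset Γ) ∈ F.carrier := by
    obtain ⟨g, hg, hg0⟩ := hav ∅
    by_cases hne : Nonempty Γ
    · obtain ⟨γ⟩ := hne
      exact F.down _ (F.single γ) _ (Finset.empty_subset _)
    · exfalso
      obtain ⟨E, -, hE⟩ := hcon ∅
      have : cut F a E = 0 := by
        rw [← norm_le_zero_iff]
        refine norm_le_of_Q le_rfl fun g hg => ?_
        rw [Q_cut]
        have : E = ∅ := by
          rw [not_nonempty_iff] at hne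
          exact Finset.eq_empty_of_isEmpty E
        rw [this]
        simp
      rw [this, norm_zero] at hE
      linarith
  have hMpos : 0 ≤ M := (norm_nonneg _).trans (hM ∅)
  let δ : ℝ := ε ^ 2 / (M ^ 2 + 1)
  have hδ : 0 < δ := by positivity
  obtain ⟨h, ⟨hhS, hhF⟩, -⟩ := ptak F hwf ⟨∅, hempty⟩ S hconv (fun g hg => ⟨hg.1, hg.2.1⟩) hav
    δ hδ ∅
  have hh1 : (fun γ => δ⁻¹ * h γ) ∈ Wt F := by
    refine ⟨fun γ => ?_, fun A hA => ?_⟩
    · have := hhS.1 γ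
      positivity
    · rw [← Finset.mul_sum]
      have := hhF A (by simpa using hA)
      calc δ⁻¹ * ∑ γ ∈ A, h γ ≤ δ⁻¹ * δ := by gcongr
        _ = 1 := inv_mul_cancel₀ hδ.ne'
  have h2 := Q_le_norm_sq hh1 (cut F a h.support)
  rw [Q_cut] at h2
  have h3 : ∑ γ ∈ h.support, δ⁻¹ * h γ * ‖a γ‖ ^ 2 = δ⁻¹ * L h := by
    rw [hL h h.support subset_rfl, Finset.mul_sum]
    refine Finset.sum_congr rfl fun γ _ => ?_
    ring
  rw [h3] at h2
  have h4 : ‖cut F a h.support‖ ^ 2 ≤ M ^ 2 := pow_le_pow_left₀ (norm_nonneg _) (hM _) 2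
  have h5 : δ⁻¹ * ε ^ 2 = M ^ 2 + 1 := by
    simp only [δ]
    field_simp
  have h6 : δ⁻¹ * ε ^ 2 ≤ δ⁻¹ * L h := by
    gcongr
    exact hhS.2.2
  linarith

/-- The coordinate functionals. -/
noncomputable def coord (F : Fam Γ) (𝕜 : Type*) [RCLike 𝕜] (γ : Γ) : StrongDual 𝕜 (Sp F 𝕜) :=
  LinearMap.mkContinuous ((Finsupp.lapply γ).comp (toF F).toLinearMap) 1 (fun y => by
    rw [one_mul]
    exact norm_apply_le F _ γ)

theorem coord_apply (γ : Γ) (y : Sp F 𝕜) : coord F 𝕜 γ y = toF F y γ := rfl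

/-- The unit vectors. -/
noncomputable def unit (F : Fam Γ) (𝕜 : Type*) [RCLike 𝕜] (γ : Γ) : Sp F 𝕜 :=
  (toF F).symm (Finsupp.single γ 1)

theorem cut_eq_sum (a : Γ → 𝕜) (E : Finset Γ) : cut F a E = ∑ γ ∈ E, a γ • unit F 𝕜 γ := by
  classical
  apply (toF F).injective
  rw [map_sum]
  refine Finsupp.ext fun γ => ?_
  rw [cut_apply, Finsupp.finsetSum_apply]
  simp only [map_smul, unit, LinearEquiv.apply_symm_apply, Finsupp.smul_apply,
    Finsupp.single_apply, smul_eq_mul, mul_ite, mul_one, mul_zero]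
  rw [Finset.sum_ite_eq']

theorem cut_self_norm_le (y : Sp F 𝕜) (E : Finset Γ) : ‖cut F (toF F y) E‖ ≤ ‖y‖ := by
  classical
  refine norm_mono fun γ => ?_
  rw [cut_apply]
  split_ifs
  · exact le_rfl
  · rw [norm_zero]
    exact norm_nonneg _

/-- The restriction of a functional to finitely many coordinates. -/
noncomputable def piece (f : StrongDual 𝕜 (Sp F 𝕜)) (E : Finset Γ) : StrongDual 𝕜 (Sp F 𝕜) :=
  ∑ γ ∈ E, f (unit F 𝕜 γ) • coord F 𝕜 γ

theorem piece_apply (f : StrongDual 𝕜 (Sp F 𝕜)) (E : Finset Γ) (y : Sp F 𝕜) :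
    piece f E y = f (cut F (toF F y) E) := by
  rw [cut_eq_sum, map_sum]
  simp only [piece, ContinuousLinearMap.sum_apply, ContinuousLinearMap.smul_apply, coord_apply,
    map_smul, smul_eq_mul]
  refine Finset.sum_congr rfl fun γ _ => ?_
  ring

theorem norm_piece_le (f : StrongDual 𝕜 (Sp F 𝕜)) (E : Finset Γ) : ‖piece f E‖ ≤ ‖f‖ := by
  refine ContinuousLinearMap.opNorm_le_bound _ (norm_nonneg _) fun y => ?_
  rw [piece_apply]
  exact (f.le_opNorm _).trans (by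
    gcongr
    exact cut_self_norm_le y E)

theorem bidual_piece (Φ : StrongDual 𝕜 (StrongDual 𝕜 (Sp F 𝕜))) (f : StrongDual 𝕜 (Sp F 𝕜))
    (E : Finset Γ) : Φ (piece f E) = f (cut F (fun γ => Φ (coord F 𝕜 γ)) E) := by
  rw [cut_eq_sum, map_sum]
  simp only [piece, map_sum, map_smul, smul_eq_mul]
  refine Finset.sum_congr rfl fun γ _ => ?_
  ring

theorem denseRange_bidual (hwf : WellFounded (fun B A : {A // A ∈ F.carrier} => A.1 ⊂ B.1)) :
    DenseRange (inclusionInDoubleDual 𝕜 (Sp F 𝕜)) := by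
  classical
  intro Φ
  suffices key : ∀ ε > 0, ∃ y, ‖Φ - inclusionInDoubleDual 𝕜 (Sp F 𝕜) y‖ < ε by
    refine (SeminormedAddCommGroup.mem_closure_iff
      (s := Set.range (inclusionInDoubleDual 𝕜 (Sp F 𝕜))) (a := Φ)).2 fun ε hε => ?_
    obtain ⟨y, hy⟩ := key ε hε
    exact ⟨_, ⟨y, rfl⟩, hy⟩
  intro ε hε
  set a : Γ → 𝕜 := fun γ => Φ (coord F 𝕜 γ) with ha
  have hM : ∀ E : Finset Γ, ‖cut F a E‖ ≤ ‖Φ‖ := by
    intro E
    refine norm_le_dual_bound 𝕜 _ (norm_nonneg Φ) fun f => ?_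
    rw [← bidual_piece]
    exact (Φ.le_opNorm _).trans (by
      gcongr
      exact norm_piece_le f E)
  obtain ⟨E₀, hE₀⟩ := coeff_tail hwf a hM (half_pos hε)
  refine ⟨cut F a E₀, ?_⟩
  refine lt_of_le_of_lt ?_ (half_lt_self hε)
  refine ContinuousLinearMap.opNorm_le_bound _ (by positivity) fun f => ?_
  rw [ContinuousLinearMap.sub_apply, dual_def]
  -- remove the piece on `E₀`
  set f' : StrongDual 𝕜 (Sp F 𝕜) := f - piece f E₀ with hf'
  have e1 : Φ f - f (cut F a E₀) = Φ f' := by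
    rw [hf', map_sub, bidual_piece]
  rw [e1]
  refine le_of_forall_pos_le_add fun δ hδ => ?_
  obtain ⟨E, hE⟩ := tail_small f' (show 0 < δ / (‖Φ‖ + 1) by positivity)
  have e2 : ‖f' - piece f' E‖ ≤ δ / (‖Φ‖ + 1) := by
    refine ContinuousLinearMap.opNorm_le_bound _ (by positivity) fun y => ?_
    rw [ContinuousLinearMap.sub_apply, piece_apply, ← map_sub]
    refine (hE _ fun γ hγ => ?_).trans ?_
    · rw [map_sub, Finsupp.sub_apply, cut_apply, if_pos hγ, sub_self]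
    · gcongr
      refine norm_mono fun γ => ?_
      rw [map_sub, Finsupp.sub_apply, cut_apply]
      split_ifs
      · rw [sub_self, norm_zero]; exact norm_nonneg _
      · rw [sub_zero]
  have e3 : Φ (piece f' E) = f (cut F a (E \ E₀)) := by
    rw [bidual_piece, hf', ContinuousLinearMap.sub_apply, piece_apply, ← map_sub]
    congr 1
    apply (toF F).injective
    refine Finsupp.ext fun γ => ?_
    rw [map_sub, Finsupp.sub_apply, cut_apply, cut_apply, cut_apply, cut_apply]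
    by_cases h1 : γ ∈ E <;> by_cases h2 : γ ∈ E₀ <;> simp [h1, h2, ha]
  calc ‖Φ f'‖ = ‖Φ (f' - piece f' E) + Φ (piece f' E)‖ := by rw [← map_add, sub_add_cancel]
    _ ≤ ‖Φ (f' - piece f' E)‖ + ‖Φ (piece f' E)‖ := norm_add_le _ _
    _ ≤ ‖Φ‖ * (δ / (‖Φ‖ + 1)) + ‖f‖ * (ε / 2) := by
      refine add_le_add ?_ ?_
      · exact (Φ.le_opNorm _).trans (by gcongr)
      · rw [e3]
        exact (f.le_opNorm _).trans (by
          gcongr
          exact hE₀ _ Finset.sdiff_disjoint)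
    _ ≤ δ + ‖f‖ * (ε / 2) := by
      gcongr
      calc ‖Φ‖ * (δ / (‖Φ‖ + 1)) = δ * (‖Φ‖ / (‖Φ‖ + 1)) := by ring
        _ ≤ δ * 1 := by
          gcongr
          rw [div_le_one (by positivity)]
          linarith
        _ = δ := mul_one δ
    _ = ε / 2 * ‖f‖ + δ := by ring

end Pool.Agent.Helper74.NS
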