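import Pool.Agent.Helper74.NS.Ptak

set_option linter.unusedSectionVars false

open Set NormedSpace

namespace Pool.Agent.Helper74.NS

variable {Γ : Type*}

/-- The weights: nonnegative functions whose sum over each member of the family is at most 1. -/
def Wt (F : Fam Γ) : Set (Γ → ℝ) := {g | (∀ γ, 0 ≤ g γ) ∧ ∀ A ∈ F.carrier, ∑ γ ∈ A, g γ ≤ 1}

theorem Wt.le_one {F : Fam Γ} {g : Γ → ℝ} (hg : g ∈ Wt F) (γ : Γ) : g γ ≤ 1 := by
  have := hg.2 {γ} (F.single γ)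
  rwa [Finset.sum_singleton] at this

theorem Wt.restrict [DecidableEq Γ] {F : Fam Γ} {g : Γ → ℝ} (hg : g ∈ Wt F) (E : Finset Γ) :
    (fun γ => if γ ∈ E then g γ else 0) ∈ Wt F := by
  refine ⟨fun γ => ?_, fun A hA => ?_⟩
  · dsimp only
    split_ifs
    · exact hg.1 γ
    · exact le_rfl
  · refine le_trans (Finset.sum_le_sum fun γ _ => ?_) (hg.2 A hA)
    split_ifs
    · exact le_rfl
    · exact hg.1 γ

theorem Wt.dirac [DecidableEq Γ] (F : Fam Γ) (γ₀ : Γ) :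
    (fun γ => if γ = γ₀ then (1 : ℝ) else 0) ∈ Wt F := by
  refine ⟨fun γ => ?_, fun A _ => ?_⟩
  · dsimp only
    split_ifs <;> norm_num
  · rw [Finset.sum_ite_eq']
    split_ifs <;> norm_num

theorem Wt.nonempty (F : Fam Γ) : (Wt F).Nonempty :=
  ⟨fun _ => 0, fun _ => le_rfl, fun A _ => by simp⟩

variable {𝕜 : Type*} [RCLike 𝕜]

/-- The quadratic form of a weight. -/
noncomputable def Q (g : Γ → ℝ) (y : Γ →₀ 𝕜) : ℝ := y.sum fun γ c => g γ * ‖c‖ ^ 2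

theorem Q_eq_sum (g : Γ → ℝ) (y : Γ →₀ 𝕜) {T : Finset Γ} (hT : y.support ⊆ T) :
    Q g y = ∑ γ ∈ T, g γ * ‖y γ‖ ^ 2 :=
  Finsupp.sum_of_support_subset _ hT _ (fun γ _ => by simp)

theorem Q_nonneg {g : Γ → ℝ} (hg : ∀ γ, 0 ≤ g γ) (y : Γ →₀ 𝕜) : 0 ≤ Q g y :=
  Finset.sum_nonneg fun γ _ => mul_nonneg (hg γ) (sq_nonneg _)

theorem Q_smul (g : Γ → ℝ) (c : 𝕜) (y : Γ →₀ 𝕜) : Q g (c • y) = ‖c‖ ^ 2 * Q g y := by
  rw [Q_eq_sum g (c • y) (T := y.support) Finsupp.support_smul, Q_eq_sum g y subset_rfl,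
    Finset.mul_sum]
  refine Finset.sum_congr rfl fun γ _ => ?_
  rw [Finsupp.smul_apply, smul_eq_mul, norm_mul]
  ring

theorem Q_mono {g : Γ → ℝ} (hg : ∀ γ, 0 ≤ g γ) {y z : Γ →₀ 𝕜} (h : ∀ γ, ‖y γ‖ ≤ ‖z γ‖) :
    Q g y ≤ Q g z := by
  have hsub : y.support ⊆ z.support := by
    intro γ hγ
    rw [Finsupp.mem_support_iff] at hγ ⊢
    intro h0
    have := h γ
    rw [h0, norm_zero] at this
    exact hγ (norm_le_zero_iff.1 this)
  rw [Q_eq_sum g y hsub, Q_eq_sum g z subset_rfl]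
  refine Finset.sum_le_sum fun γ _ => mul_le_mul_of_nonneg_left ?_ (hg γ)
  exact pow_le_pow_left₀ (norm_nonneg _) (h γ) 2

theorem sqrt_Q_add {g : Γ → ℝ} (hg : ∀ γ, 0 ≤ g γ) (y z : Γ →₀ 𝕜) :
    √(Q g (y + z)) ≤ √(Q g y) + √(Q g z) := by
  classical
  have hy := Q_nonneg hg y
  have hz := Q_nonneg hg z
  set T := y.support ∪ z.support with hT
  have e1 : Q g (y + z) = ∑ γ ∈ T, g γ * ‖y γ + z γ‖ ^ 2 := by
    rw [Q_eq_sum g (y + z) (T := T) Finsupp.support_add]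
    rfl
  have e2 : Q g y = ∑ γ ∈ T, (√(g γ) * ‖y γ‖) ^ 2 := by
    rw [Q_eq_sum g y (T := T) Finset.subset_union_left]
    refine Finset.sum_congr rfl fun γ _ => ?_
    rw [mul_pow, Real.sq_sqrt (hg γ)]
  have e3 : Q g z = ∑ γ ∈ T, (√(g γ) * ‖z γ‖) ^ 2 := by
    rw [Q_eq_sum g z (T := T) Finset.subset_union_right]
    refine Finset.sum_congr rfl fun γ _ => ?_
    rw [mul_pow, Real.sq_sqrt (hg γ)]
  have cs : ∑ γ ∈ T, (√(g γ) * ‖y γ‖) * (√(g γ) * ‖z γ‖) ≤ √(Q g y) * √(Q g z) := by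
    rw [← Real.sqrt_mul hy]
    apply Real.le_sqrt_of_sq_le
    rw [e2, e3]
    exact Finset.sum_mul_sq_le_sq_mul_sq _ _ _
  rw [Real.sqrt_le_left (by positivity), add_sq, Real.sq_sqrt hy, Real.sq_sqrt hz, e1]
  calc ∑ γ ∈ T, g γ * ‖y γ + z γ‖ ^ 2
      ≤ ∑ γ ∈ T, ((√(g γ) * ‖y γ‖) ^ 2 + 2 * ((√(g γ) * ‖y γ‖) * (√(g γ) * ‖z γ‖)) +
          (√(g γ) * ‖z γ‖) ^ 2) := by
        refine Finset.sum_le_sum fun γ _ => ?_
        have h1 : ‖y γ + z γ‖ ^ 2 ≤ (‖y γ‖ + ‖z γ‖) ^ 2 :=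
          pow_le_pow_left₀ (norm_nonneg _) (norm_add_le _ _) 2
        have h2 : g γ * ‖y γ + z γ‖ ^ 2 ≤ g γ * (‖y γ‖ + ‖z γ‖) ^ 2 :=
          mul_le_mul_of_nonneg_left h1 (hg γ)
        have h3 : g γ * (‖y γ‖ + ‖z γ‖) ^ 2 = (√(g γ) * ‖y γ‖) ^ 2 +
            2 * ((√(g γ) * ‖y γ‖) * (√(g γ) * ‖z γ‖)) + (√(g γ) * ‖z γ‖) ^ 2 := by
          have h4 : g γ = √(g γ) ^ 2 := (Real.sq_sqrt (hg γ)).symm
          nth_rewrite 1 [h4]
          ring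
        rw [← h3]
        exact h2
    _ = Q g y + 2 * ∑ γ ∈ T, (√(g γ) * ‖y γ‖) * (√(g γ) * ‖z γ‖) + Q g z := by
        rw [Finset.sum_add_distrib, Finset.sum_add_distrib, ← Finset.mul_sum, ← e2, ← e3]
    _ ≤ Q g y + 2 * √(Q g y) * √(Q g z) + Q g z := by
        have := cs
        linarith

/-- The norm. -/
noncomputable def nrm (F : Fam Γ) (y : Γ →₀ 𝕜) : ℝ := sSup ((fun g => √(Q g y)) '' Wt F)

theorem nrm_bdd (F : Fam Γ) (y : Γ →₀ 𝕜) : BddAbove ((fun g => √(Q g y)) '' Wt F) := by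
  refine ⟨√(∑ γ ∈ y.support, ‖y γ‖ ^ 2), ?_⟩
  rintro _ ⟨g, hg, rfl⟩
  apply Real.sqrt_le_sqrt
  refine Finset.sum_le_sum fun γ _ => ?_
  calc g γ * ‖y γ‖ ^ 2 ≤ 1 * ‖y γ‖ ^ 2 := by
        gcongr
        exact Wt.le_one hg γ
    _ = ‖y γ‖ ^ 2 := one_mul _

theorem le_nrm {F : Fam Γ} {g : Γ → ℝ} (hg : g ∈ Wt F) (y : Γ →₀ 𝕜) : √(Q g y) ≤ nrm F y :=
  le_csSup (nrm_bdd F y) ⟨g, hg, rfl⟩

theorem nrm_le {F : Fam Γ} {y : Γ →₀ 𝕜} {c : ℝ} (h : ∀ g ∈ Wt F, √(Q g y) ≤ c) : nrm F y ≤ c :=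
  csSup_le ((Wt.nonempty F).image _) (by rintro _ ⟨g, hg, rfl⟩; exact h g hg)

theorem nrm_nonneg (F : Fam Γ) (y : Γ →₀ 𝕜) : 0 ≤ nrm F y := by
  obtain ⟨g, hg⟩ := Wt.nonempty F
  exact (Real.sqrt_nonneg _).trans (le_nrm hg y)

theorem norm_apply_le (F : Fam Γ) (y : Γ →₀ 𝕜) (γ : Γ) : ‖y γ‖ ≤ nrm F y := by
  classical
  refine le_trans ?_ (le_nrm (Wt.dirac F γ) y)
  apply Real.le_sqrt_of_sq_le
  rw [Q_eq_sum _ y (T := insert γ y.support) (Finset.subset_insert _ _)]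
  have : (∑ γ' ∈ insert γ y.support, (if γ' = γ then (1 : ℝ) else 0) * ‖y γ'‖ ^ 2) = ‖y γ‖ ^ 2 := by
    rw [Finset.sum_eq_single γ]
    · simp
    · intro γ' _ hne
      simp [hne]
    · intro h
      exact absurd (Finset.mem_insert_self _ _) h
  rw [this]

/-- Finitely supported functions with this norm. -/
def Sp (_ : Fam Γ) (𝕜 : Type*) [RCLike 𝕜] := Γ →₀ 𝕜

variable (F : Fam Γ)

noncomputable instance : AddCommGroup (Sp F 𝕜) := inferInstanceAs (AddCommGroup (Γ →₀ 𝕜))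
noncomputable instance : Module 𝕜 (Sp F 𝕜) := inferInstanceAs (Module 𝕜 (Γ →₀ 𝕜))

/-- the underlying finitely supported function -/
noncomputable def toF : Sp F 𝕜 ≃ₗ[𝕜] (Γ →₀ 𝕜) := LinearEquiv.refl 𝕜 (Γ →₀ 𝕜)

noncomputable instance : Norm (Sp F 𝕜) := ⟨fun y => nrm F (toF F y)⟩

theorem spCore : NormedSpace.Core 𝕜 (Sp F 𝕜) where
  norm_nonneg y := nrm_nonneg F (toF F y)
  norm_smul c y := by
    change nrm F (toF F (c • y)) = ‖c‖ * nrm F (toF F y)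
    rw [map_smul]
    have h1 : ∀ g ∈ Wt F, √(Q g (c • toF F y)) = ‖c‖ * √(Q g (toF F y)) := by
      intro g _
      rw [Q_smul, Real.sqrt_mul (sq_nonneg _), Real.sqrt_sq (norm_nonneg _)]
    apply le_antisymm
    · refine nrm_le fun g hg => ?_
      rw [h1 g hg]
      exact mul_le_mul_of_nonneg_left (le_nrm hg _) (norm_nonneg _)
    · by_cases hc : ‖c‖ = 0
      · rw [hc, zero_mul]
        exact nrm_nonneg F _
      · have hc' : 0 < ‖c‖ := lt_of_le_of_ne (norm_nonneg _) (Ne.symm hc)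
        rw [← le_div_iff₀' hc']
        refine nrm_le fun g hg => ?_
        rw [le_div_iff₀' hc', ← h1 g hg]
        exact le_nrm hg _
  norm_triangle y z := by
    change nrm F (toF F (y + z)) ≤ nrm F (toF F y) + nrm F (toF F z)
    rw [map_add]
    exact nrm_le fun g hg => (sqrt_Q_add hg.1 _ _).trans (add_le_add (le_nrm hg _) (le_nrm hg _))
  norm_eq_zero_iff y := by
    change nrm F (toF F y) = 0 ↔ y = 0
    constructor
    · intro h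
      rw [← (toF (𝕜 := 𝕜) F).map_eq_zero_iff]
      refine Finsupp.ext fun γ => ?_
      have := norm_apply_le F (toF F y) γ
      rw [h] at this
      exact norm_le_zero_iff.1 this
    · rintro rfl
      apply le_antisymm
      · refine nrm_le fun g _ => ?_
        rw [map_zero]
        have : Q g (0 : Γ →₀ 𝕜) = 0 := Finsupp.sum_zero_index
        rw [this, Real.sqrt_zero]
      · exact nrm_nonneg F _

noncomputable instance : NormedAddCommGroup (Sp F 𝕜) := NormedAddCommGroup.ofCore (spCore F)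
noncomputable instance : NormedSpace 𝕜 (Sp F 𝕜) := NormedSpace.ofCore (spCore F)

variable {F}

theorem norm_def (y : Sp F 𝕜) : ‖y‖ = nrm F (toF F y) := rfl

theorem Q_le_norm_sq {g : Γ → ℝ} (hg : g ∈ Wt F) (y : Sp F 𝕜) :
    Q g (toF F y) ≤ ‖y‖ ^ 2 := by
  have h1 : √(Q g (toF F y)) ≤ ‖y‖ := le_nrm hg (toF F y)
  calc Q g (toF F y) = √(Q g (toF F y)) ^ 2 := (Real.sq_sqrt (Q_nonneg hg.1 _)).symm
    _ ≤ ‖y‖ ^ 2 := pow_le_pow_left₀ (Real.sqrt_nonneg _) h1 2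

theorem norm_le_of_Q {y : Sp F 𝕜} {c : ℝ} (hc : 0 ≤ c)
    (h : ∀ g ∈ Wt F, Q g (toF F y) ≤ c ^ 2) : ‖y‖ ≤ c :=
  nrm_le fun g hg => (Real.sqrt_le_left hc).2 (h g hg)

theorem norm_mono {y z : Sp F 𝕜} (h : ∀ γ, ‖toF F y γ‖ ≤ ‖toF F z γ‖) : ‖y‖ ≤ ‖z‖ :=
  norm_le_of_Q (norm_nonneg z) fun _ hg => (Q_mono hg.1 h).trans (Q_le_norm_sq hg z)

theorem norm_add_sq_le {y z : Sp F 𝕜}
    (h : ∀ γ, toF F y γ = 0 ∨ toF F z γ = 0) : ‖y + z‖ ^ 2 ≤ ‖y‖ ^ 2 + ‖z‖ ^ 2 := by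
  classical
  have h1 : ‖y + z‖ ≤ √(‖y‖ ^ 2 + ‖z‖ ^ 2) := by
    refine norm_le_of_Q (Real.sqrt_nonneg _) fun g hg => ?_
    rw [Real.sq_sqrt (by positivity)]
    have e : Q g (toF F (y + z)) = Q g (toF F y) + Q g (toF F z) := by
      rw [map_add]
      set T := (toF F y).support ∪ (toF F z).support
      rw [Q_eq_sum g (toF F y) (T := T) Finset.subset_union_left,
        Q_eq_sum g (toF F z) (T := T) Finset.subset_union_right, ← Finset.sum_add_distrib,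
        Q_eq_sum g (toF F y + toF F z) (T := T) Finsupp.support_add]
      refine Finset.sum_congr rfl fun γ _ => ?_
      rw [Finsupp.add_apply]
      rcases h γ with h0 | h0 <;> simp [h0]
    rw [e]
    exact add_le_add (Q_le_norm_sq hg y) (Q_le_norm_sq hg z)
  calc ‖y + z‖ ^ 2 ≤ √(‖y‖ ^ 2 + ‖z‖ ^ 2) ^ 2 := pow_le_pow_left₀ (norm_nonneg _) h1 2
    _ = ‖y‖ ^ 2 + ‖z‖ ^ 2 := Real.sq_sqrt (by positivity)

/-- The finite piece of a function. -/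
noncomputable def cut (F : Fam Γ) (a : Γ → 𝕜) (E : Finset Γ) : Sp F 𝕜 :=
  (toF F).symm (Finsupp.indicator E (fun γ _ => a γ))

theorem cut_apply [DecidableEq Γ] (a : Γ → 𝕜) (E : Finset Γ) (γ : Γ) :
    toF F (cut F a E) γ = if γ ∈ E then a γ else 0 := by
  unfold cut
  rw [LinearEquiv.apply_symm_apply, Finsupp.indicator_apply]
  split_ifs <;> rfl

theorem Q_cut (g : Γ → ℝ) (a : Γ → 𝕜) (E : Finset Γ) :
    Q g (toF F (cut F a E)) = ∑ γ ∈ E, g γ * ‖a γ‖ ^ 2 := by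
  classical
  rw [Q_eq_sum g _ (T := E) (by
    intro γ hγ
    rw [Finsupp.mem_support_iff, cut_apply] at hγ
    by_contra h
    exact hγ (if_neg h))]
  refine Finset.sum_congr rfl fun γ hγ => ?_
  rw [cut_apply, if_pos hγ]

theorem norm_cut_le_one {A : Finset Γ} (hA : A ∈ F.carrier) {σ : Γ → 𝕜} (hσ : ∀ γ, ‖σ γ‖ ≤ 1) :
    ‖cut F σ A‖ ≤ 1 := by
  refine norm_le_of_Q zero_le_one fun g hg => ?_
  rw [Q_cut, one_pow]
  refine le_trans (Finset.sum_le_sum fun γ _ => ?_) (hg.2 A hA)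
  calc g γ * ‖σ γ‖ ^ 2 ≤ g γ * 1 := by
        gcongr
        · exact hg.1 γ
        · exact pow_le_one₀ (norm_nonneg _) (hσ γ)
    _ = g γ := mul_one _

end Pool.Agent.Helper74.NS
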